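import Pool.Agent.H39Z.SSS.CoreB

/-! The core argument: a measure with certificates has nonpositive energy. -/

set_option autoImplicit false

namespace Pool.Agent.H39Z.SSS

open MeasureTheory Set Polynomial

theorem Supp.bdd {μ : Measure ℝ} {R : ℝ} (h : Supp μ R) {f : ℝ → ℝ} (hf : Continuous f) :
    ∃ B, ∀ᵐ x ∂μ, |f x| ≤ B := by
  obtain ⟨B, hB⟩ := isCompact_Icc.exists_bound_of_continuousOn (hf.continuousOn (s := Icc 0 R))
  exact ⟨B, by filter_upwards [h] with x hx using hB x hx⟩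

theorem Supp.prod {μ ν : Measure ℝ} [IsProbabilityMeasure μ] [IsProbabilityMeasure ν] {R : ℝ}
    (h : Supp μ R) (h' : Supp ν R) : ∀ᵐ p ∂(μ.prod ν), |p.1 - p.2| ≤ R := by
  have h1 : ∀ᵐ p ∂(μ.prod ν), p.1 ∈ Icc 0 R := Measure.quasiMeasurePreserving_fst.ae h
  have h2 : ∀ᵐ p ∂(μ.prod ν), p.2 ∈ Icc 0 R := Measure.quasiMeasurePreserving_snd.ae h'
  filter_upwards [h1, h2] with p a b
  exact abs_le.2 ⟨by linarith [a.1, b.2], by linarith [a.2, b.1]⟩

theorem one_le_lead {q : ℤ[X]} (hq : q ≠ 0) : 1 ≤ |(q.leadingCoeff : ℝ)| := by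
  rw [← Int.cast_abs]
  exact_mod_cast Int.one_le_abs (leadingCoeff_ne_zero.2 hq)

theorem roots_int (hT : S_T) {μ : Measure ℝ} [IsProbabilityMeasure μ] {R : ℝ} (hμ : Supp μ R)
    (hA : ArT μ) {q : ℤ[X]} (hq : q ≠ 0)
    (hf : ∀ x : ℝ, |aeval x q| = |(q.leadingCoeff : ℝ)| * ∏ z ∈ rt q, ‖(x : ℂ) - z‖) :
    (∀ z ∈ rt q, ∀ᵐ (x : ℝ) ∂μ, (x : ℂ) ≠ z) ∧
      (∀ z ∈ rt q, Integrable (fun x : ℝ => Real.log ‖(x : ℂ) - z‖) μ) ∧
      0 ≤ Real.log |(q.leadingCoeff : ℝ)| + ∑ z ∈ rt q, ∫ x : ℝ, Real.log ‖(x : ℂ) - z‖ ∂μ := by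
  classical
  have hc : Continuous fun x : ℝ => aeval x q := Polynomial.continuous_aeval q
  obtain ⟨B, hB⟩ := hμ.bdd hc
  obtain ⟨t1, t2, t3⟩ := hT ℝ μ (fun x => aeval x q) B 0 hc.measurable hB
    fun δ h _ => hA q hq δ h
  have h1 := one_le_lead hq
  have hne : ∀ᵐ (x : ℝ) ∂μ, ∀ z ∈ rt q, (x : ℂ) ≠ z := by
    filter_upwards [t1] with x hx z hz h
    apply hx
    rw [← abs_eq_zero, hf, Finset.prod_eq_zero hz (by simp [h]), mul_zero]
  have hlog : ∀ᵐ (x : ℝ) ∂μ, Real.log |aeval x q| =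
      Real.log |(q.leadingCoeff : ℝ)| + ∑ z ∈ rt q, Real.log ‖(x : ℂ) - z‖ := by
    filter_upwards [hne] with x hx
    have h2 : ∀ z ∈ rt q, ‖(x : ℂ) - z‖ ≠ 0 :=
      fun z hz => norm_ne_zero_iff.2 (sub_ne_zero.2 (hx z hz))
    rw [hf, Real.log_mul (by linarith) (Finset.prod_ne_zero_iff.2 h2), Real.log_prod h2]
  have hint : ∀ z ∈ rt q, Integrable (fun x : ℝ => Real.log ‖(x : ℂ) - z‖) μ := by
    intro z hz
    refine (t2.abs.add (integrable_const (Real.log |(q.leadingCoeff : ℝ)| +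
      ∑ w ∈ rt q, (Real.log (max 1 ‖w‖) + Real.log (R + 1))))).mono' ?_ ?_
    · exact (Real.measurable_log.comp (by fun_prop)).aestronglyMeasurable
    · filter_upwards [hne, hlog, hμ] with x hx hl hx'
      have hR : 0 ≤ Real.log (R + 1) := Real.log_nonneg (by linarith [hx'.1, hx'.2])
      have hu : ∀ w : ℂ, 0 ≤ Real.log (max 1 ‖w‖) + Real.log (R + 1) :=
        fun w => add_nonneg (Real.log_nonneg (le_max_left _ _)) hR
      have b1 := Finset.sum_le_sum (s := (rt q).erase z) fun w hw =>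
        log_le_ht hx' (hx w (Finset.mem_of_mem_erase hw))
      have b2 := Finset.add_sum_erase (rt q) (fun w => Real.log ‖(x : ℂ) - w‖) hz
      have b3 := Finset.add_sum_erase (rt q)
        (fun w => Real.log (max 1 ‖w‖) + Real.log (R + 1)) hz
      have b4 : 0 ≤ ∑ w ∈ (rt q).erase z, (Real.log (max 1 ‖w‖) + Real.log (R + 1)) :=
        Finset.sum_nonneg fun w _ => hu w
      have b5 := log_le_ht hx' (hx z hz)
      have b6 := Real.log_nonneg h1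
      have b7 := hu z
      simp only [Pi.add_apply, Real.norm_eq_abs]
      have b8 := neg_abs_le (Real.log |aeval x q|)
      have b9 := abs_nonneg (Real.log |aeval x q|)
      exact abs_le.2 ⟨by linarith, by linarith⟩
  refine ⟨fun z hz => by filter_upwards [hne] with x hx using hx z hz, hint, ?_⟩
  rw [integral_congr_ae hlog, integral_add (integrable_const _) (integrable_finsetSum _ hint),
    integral_finsetSum _ hint, integral_const, probReal_univ, one_smul] at t3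
  exact t3

theorem En_eq {μ ν : Measure ℝ} [IsProbabilityMeasure μ] [IsProbabilityMeasure ν] {s : ℝ}
    (h : Integrable (fun p : ℝ × ℝ => S s (p.1 - p.2)) (μ.prod ν)) :
    En s μ ν = ∫ p, S s (p.1 - p.2) ∂(μ.prod ν) := by
  rw [integral_prod_symm _ h, En]

theorem final_num {I L C₁ C₂ Λ σ m : ℝ} (hI : 0 < I) (hL : 0 ≤ L) (h1 : 0 ≤ C₁) (h2 : 0 ≤ C₂)
    (hΛ : 1 ≤ Λ) (h0 : 0 < σ) (hσ : σ ≤ 1) (hm : m * (I / 4) ≤ σ * (C₁ + 2 * Λ)) :
    σ ^ 2 + 2 * (σ ^ 2 + (49 + L) * σ + m * (C₂ + 2 * Λ)) ≤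
      σ * ((3 + 2 * (49 + L) + 8 / I * (C₁ + 2) * (C₂ + 2)) * Λ ^ 2) := by
  have a1 : m ≤ 4 / I * (σ * ((C₁ + 2) * Λ)) := by
    rw [div_mul_eq_mul_div, le_div_iff₀ hI]
    nlinarith [mul_nonneg h0.le (mul_nonneg h1 (sub_nonneg.2 hΛ))]
  have a2 : C₂ + 2 * Λ ≤ (C₂ + 2) * Λ := by nlinarith
  have a3 : m * (C₂ + 2 * Λ) ≤ 4 / I * (σ * ((C₁ + 2) * Λ)) * ((C₂ + 2) * Λ) :=
    (mul_le_mul_of_nonneg_right a1 (by positivity)).trans
      (mul_le_mul_of_nonneg_left a2 (by positivity))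
  have a4 : 1 ≤ Λ ^ 2 := one_le_pow₀ hΛ
  have a5 : σ ^ 2 ≤ σ * Λ ^ 2 := by nlinarith
  have a6 : (49 + L) * σ ≤ (49 + L) * σ * Λ ^ 2 := le_mul_of_one_le_right (by positivity) a4
  have a7 : 4 / I * (σ * ((C₁ + 2) * Λ)) * ((C₂ + 2) * Λ) =
      σ * (8 / I * (C₁ + 2) * (C₂ + 2) * Λ ^ 2) / 2 := by ring
  nlinarith

theorem core (hT : S_T) (hW : S_W) (hR : S_REG) (hB : S_B) (hN : S_N) (hM : S_MASS)
    (hF : S_FACT) : S_CORE := by
  classical
  intro μ _ L hL hμ hA hC hne hint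
  by_contra hI
  push Not at hI
  set I := ∫ p, Real.log |p.1 - p.2| ∂(μ.prod μ) with hIdef
  obtain ⟨w1, w2⟩ := hW (ℝ × ℝ) (μ.prod μ) (fun p => p.1 - p.2) (4 * L) (by fun_prop)
    (hμ.prod hμ) hne hint
  have hIle : ∀ b, 0 < b → I ≤ En b μ μ := fun b hb => by
    rw [En_eq (w1 b hb).1]; exact (w1 b hb).2
  obtain ⟨A, C, a1, a2, a3, a4, a5⟩ := hR μ _ hμ hne hint (1 / 8) (by norm_num)
  obtain ⟨κ, Λ₀, hκ, hb⟩ := hB μ (4 * L) 49 C A (by linarith) (by norm_num) a4 a1 a2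
    (by linarith) a5
  set θ := min 1 (κ * I / 16) with hθ
  have θ0 : 0 < θ := lt_min one_pos (by positivity)
  have θ1 : θ ≤ 1 := min_le_left _ _
  have θ2 : θ ≤ κ * I / 16 := min_le_right _ _
  obtain ⟨δ₀, d0, d1⟩ := w2 (θ * I / 4) (by positivity)
  set δ := min 1 δ₀ with hδ
  have δ0 : 0 < δ := lt_min one_pos d0
  have δ1 : δ ≤ 1 := min_le_left _ _
  have δ2 : En δ μ μ ≤ I + θ * I / 4 := by
    rw [En_eq (w1 δ δ0).1]; exact d1 δ δ0 (min_le_right _ _)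
  have lδ := Real.log_nonpos δ0.le δ1
  set C₁ := 51 + L - Real.log δ with hC₁
  have C₁0 : 0 ≤ C₁ := by linarith
  set C₂ := Real.log (2 * (4 * L)) + Real.log (4 * L + 1) with hC₂
  have C₂0 : 0 ≤ C₂ := add_nonneg (Real.log_nonneg (by linarith)) (Real.log_nonneg (by linarith))
  obtain ⟨Λ, l1, l2, l3⟩ := big_lam (3 + 2 * (49 + L) + 8 / I * (C₁ + 2) * (C₂ + 2))
    (max (max Λ₀ (8 * C₁ / (I * κ))) (max (-Real.log δ) (-Real.log (I / 4))))
  have l4 : Λ₀ ≤ Λ := ((le_max_left _ _).trans (le_max_left _ _)).trans l1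
  have l5 : 8 * C₁ / (I * κ) ≤ Λ := ((le_max_right _ _).trans (le_max_left _ _)).trans l1
  have l6 : -Real.log δ ≤ Λ := ((le_max_left _ _).trans (le_max_right _ _)).trans l1
  have l7 : -Real.log (I / 4) ≤ Λ := ((le_max_right _ _).trans (le_max_right _ _)).trans l1
  set σ := Real.exp (-Λ) with hσ
  have σ0 : 0 < σ := Real.exp_pos _
  have σ1 : σ ≤ 1 := Real.exp_le_one_iff.2 (by linarith)
  have σl : Real.log σ = -Λ := Real.log_exp _
  have σ2 : σ ^ 2 ≤ σ := by nlinarith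
  have σ3 : σ ≤ δ := by
    rw [← Real.exp_log δ0]; exact Real.exp_le_exp.2 (by linarith)
  have σ4 : σ ≤ I / 4 := by
    rw [← Real.exp_log (show 0 < I / 4 by positivity)]; exact Real.exp_le_exp.2 (by linarith)
  have σ5 : σ ^ 4 / 4 ≤ δ := by
    have : σ ^ 4 ≤ σ := pow_le_of_le_one σ0.le σ1 (by norm_num)
    linarith
  obtain ⟨M, P, hM0, hP, hcert⟩ := hC (σ ^ 2) (by positivity)
  have hM1 : (0 : ℝ) < M := by exact_mod_cast hM0
  obtain ⟨s, n, f1, f2, f3⟩ := hF P hP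
  set a : ℤ[X] → ℝ := fun q => Real.log |(q.leadingCoeff : ℝ)| with ha
  have ha0 : ∀ q ∈ s, 0 ≤ a q := fun q hq => Real.log_nonneg (one_le_lead (f2 q hq).1)
  have hr := fun q hq => roots_int hT hμ hA (f2 q hq).1 (f2 q hq).2
  have hz := fun q hq => (hr q hq).1
  have hi := fun q hq => (hr q hq).2.1
  have hl : ∀ q ∈ s, 0 ≤ a q + ∑ z ∈ rt q, ∫ x : ℝ, Real.log ‖(x : ℂ) - z‖ ∂μ :=
    fun q hq => (hr q hq).2.2
  obtain ⟨g1, g2, g3⟩ := cert_int (s := s) (r := rt) (a := a) hN hM hL hμ ha0 hz hi n hM0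
    (σ2.trans σ1) σ0 σ1 (fun x hx => le_trans (le_of_eq (Finset.prod_congr rfl fun q hq => by
      rw [(f2 q hq).2, ha, Real.exp_log (one_pos.trans_le (one_le_lead (f2 q hq).1))]))
      ((f1 x).trans (hcert x hx)))
  set w : ℤ[X] → ℝ := fun q => (n q / M : ℝ) with hw
  have w0 : ∀ q, 0 ≤ w q := fun q => by positivity
  set ℓ : ℤ[X] → ℝ := fun q => a q + ∑ z ∈ rt q, ∫ x : ℝ, Real.log ‖(x : ℂ) - z‖ ∂μ with hℓ
  set N : ℤ[X] → ℝ := fun q =>
    ∑ z ∈ rt q, ∫ x : ℝ, max 0 (Real.log (σ ^ 2 / ‖(x : ℂ) - z‖)) ∂μ with hNd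
  have N0 : ∀ q, 0 ≤ N q := fun q =>
    Finset.sum_nonneg fun z _ => integral_nonneg fun x => le_max_left _ _
  have g4 : ∀ J ⊆ s, ∑ q ∈ J, w q * ℓ q + ∑ q ∈ J, w q * N q ≤ σ ^ 2 + (49 + L) * σ := by
    intro J hJ
    refine le_trans (add_le_add ?_ ?_) g3
    · exact Finset.sum_le_sum_of_subset_of_nonneg hJ fun q hq _ => mul_nonneg (w0 q) (hl q hq)
    · exact Finset.sum_le_sum_of_subset_of_nonneg hJ fun q _ _ => mul_nonneg (w0 q) (N0 q)
  set Jh := s.filter fun q => σ < w q with hJh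
  set Jt := s.filter fun q => ¬σ < w q with hJt
  have sh : Jh ⊆ s := Finset.filter_subset _ _
  have st : Jt ⊆ s := Finset.filter_subset _ _
  have head := part_le (v := fun _ => (1 : ℝ)) hμ ha0 f3 hz hi sh zero_le_one
    (fun _ _ => ⟨zero_le_one, le_rfl⟩) hIle δ2 σ0 σ1 σ5 δ1 θ0 θ1 (σ2.trans σ4)
  have tail := part_le (v := w) hμ ha0 f3 hz hi st σ0.le
    (fun q hq => ⟨w0 q, not_lt.1 (Finset.mem_filter.1 hq).2⟩) hIle δ2 σ0 σ1 σ5 δ1 θ0 θ1
    (σ2.trans σ4)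
  have head2 : ∑ q ∈ Jh, 1 * ℓ q + ∑ q ∈ Jh, 1 * N q ≤ 50 + L := by
    refine le_of_mul_le_mul_left ?_ σ0
    have b1 : σ * (∑ q ∈ Jh, 1 * ℓ q + ∑ q ∈ Jh, 1 * N q) ≤
        ∑ q ∈ Jh, w q * ℓ q + ∑ q ∈ Jh, w q * N q := by
      rw [mul_add, Finset.mul_sum, Finset.mul_sum]
      refine add_le_add (Finset.sum_le_sum fun q hq => ?_) (Finset.sum_le_sum fun q hq => ?_)
      · rw [one_mul]
        exact mul_le_mul_of_nonneg_right (Finset.mem_filter.1 hq).2.le (hl q (sh hq))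
      · rw [one_mul]
        exact mul_le_mul_of_nonneg_right (Finset.mem_filter.1 hq).2.le (N0 q)
    have := g4 Jh sh
    linarith
  have card : ((Jh.sigma rt).card : ℝ) ≤ κ * Λ := by
    have b1 : ((Jh.sigma rt).card : ℝ) = ∑ q ∈ Jh, 1 * ((rt q).card : ℝ) := by
      rw [Finset.card_sigma]; simp
    rw [b1]
    rw [σl] at head
    rw [div_le_iff₀ (by positivity)] at l5
    refine le_of_mul_le_mul_right ?_ (show 0 < I / 4 by positivity)
    have b2 := mul_le_mul_of_nonneg_right θ2 (show 0 ≤ Λ by linarith)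
    nlinarith
  have tail2 : (∑ q ∈ Jt, w q * (rt q).card) * (I / 4) ≤ σ * (C₁ + 2 * Λ) := by
    rw [σl] at tail
    have b1 := g4 Jt st
    have b2 : σ * (θ * Λ) ≤ σ * Λ := mul_le_mul_of_nonneg_left (by nlinarith) σ0.le
    nlinarith
  have tail3 := tail_le (v := w) (by linarith) hμ ha0 hz hi st (fun q _ => w0 q)
    (show 0 < σ ^ 2 by positivity) (σ2.trans σ1)
    (Finset.sum_nonneg fun q hq => mul_nonneg (w0 q) (hl q (st hq)))
  obtain ⟨i1, i2⟩ := int_F (a := a) hi subset_rfl w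
  obtain ⟨i3, -⟩ := int_F (a := a) hi st w
  have ix : Integrable (fun x : ℝ => x) μ := hμ.int continuous_id
  set c := ∫ y, y ∂μ - σ ^ 2 with hc
  have iG : Integrable (fun x : ℝ => x - c -
      ∑ q ∈ s, w q * (a q + ∑ z ∈ rt q, Real.log ‖(x : ℂ) - z‖)) μ :=
    (ix.sub (integrable_const c)).sub i1
  have eφ : ∀ x : ℝ, x - (c + ∑ q ∈ Jh, w q * a q) -
      ∑ i ∈ Jh.sigma rt, w i.1 * Real.log ‖(x : ℂ) - i.2‖ =
      (x - c - ∑ q ∈ s, w q * (a q + ∑ z ∈ rt q, Real.log ‖(x : ℂ) - z‖)) +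
        ∑ q ∈ Jt, w q * (a q + ∑ z ∈ rt q, Real.log ‖(x : ℂ) - z‖) := by
    intro x
    rw [← Finset.sum_filter_add_sum_filter_not s (fun q => σ < w q), Finset.sum_sigma]
    simp only [mul_add, Finset.sum_add_distrib, Finset.mul_sum, ← hJh, ← hJt]
    ring
  have fin := hb Λ l4 _ (Jh.sigma rt) (fun i => w i.1) (fun i => i.2) (c + ∑ q ∈ Jh, w q * a q)
    (fun i _ => w0 _) (by
      refine le_trans ?_ g1
      rw [Finset.sum_sigma]
      simp only [Finset.sum_const, nsmul_eq_mul, mul_comm]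
      exact Finset.sum_le_sum_of_subset_of_nonneg sh fun q _ _ => by positivity) card
    (fun i hi' => hz _ (sh (Finset.mem_sigma.1 hi').1) _ (Finset.mem_sigma.1 hi').2)
    (by simp_rw [eφ]; exact iG.add i3)
  simp_rw [eφ] at fin
  have b1 := integral_mono_ae (iG.add i3).abs (iG.add i3.abs) (by
    filter_upwards [g2] with x hx
    simp only [Pi.add_apply]
    refine (abs_add_le _ _).trans ?_
    rw [abs_of_nonneg hx])
  have b2 := integral_add iG i3.abs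
  have b3 := integral_sub (ix.sub (integrable_const c)) i1
  have b4 := integral_sub ix (integrable_const (μ := μ) c)
  simp only [Pi.add_apply, Pi.sub_apply] at b1 b3
  rw [b2, b3, b4, i2, integral_const, probReal_univ, one_smul] at b1
  have b5 : 0 ≤ ∑ q ∈ s, w q * ℓ q := Finset.sum_nonneg fun q hq => mul_nonneg (w0 q) (hl q hq)
  have b6 := final_num (L := L) hI (by linarith) C₁0 C₂0 l2 σ0 σ1 tail2
  have b7 := g4 Jt st
  have b8 : Real.log (σ ^ 2) = -(2 * Λ) := by rw [Real.log_pow, σl]; push_cast; ring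
  have b9 : σ * Real.exp (Λ / 2) = Real.exp (-Λ / 2) := by
    rw [hσ, ← Real.exp_add]; congr 1; ring
  have b10 := mul_le_mul_of_nonneg_left l3 σ0.le
  have b11 : Real.log (2 * (4 * L)) - -(2 * Λ) + Real.log (4 * L + 1) = C₂ + 2 * Λ := by
    rw [hC₂]; ring
  rw [b8, b11] at tail3
  linarith

end Pool.Agent.H39Z.SSS
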