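import Pool.Agent.H39Z.SSS.Kern

/-! Elementary estimates for the core argument. -/

set_option autoImplicit false

namespace Pool.Agent.H39Z.SSS

open MeasureTheory Set

theorem K_le_log_add (ρ x : ℝ) (z : ℂ) (hρ : 0 < ρ) : K ρ x z ≤ Real.log (‖(x : ℂ) - z‖ + ρ) := by
  have e : Real.log (‖(x : ℂ) - z‖ + ρ) * 2 = Real.log ((‖(x : ℂ) - z‖ + ρ) ^ 2) := by
    rw [Real.log_pow]; push_cast; ring
  rw [K, div_le_iff₀ (by norm_num), e]
  refine Real.log_le_log (by positivity) ?_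
  have h1 : ‖(x : ℂ) - z‖ ^ 2 = (x - z.re) ^ 2 + |z.im| ^ 2 := by
    rw [Complex.sq_norm, Complex.normSq_apply, sq_abs]
    simp
    ring
  have h2 : |z.im| ≤ ‖(x : ℂ) - z‖ := by
    have := Complex.abs_im_le_norm ((x : ℂ) - z)
    simpa using this
  simp only [Complex.ofReal_re, Complex.ofReal_im, abs_zero, zero_add]
  nlinarith

theorem K_le_log {σ x : ℝ} {z : ℂ} (hz : (x : ℂ) ≠ z) (h0 : 0 < σ) (h1 : σ ≤ 1) :
    K (σ ^ 4 / 4) x z ≤
      Real.log ‖(x : ℂ) - z‖ + σ ^ 2 / 2 + max 0 (Real.log (σ ^ 2 / ‖(x : ℂ) - z‖)) := by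
  refine (K_le_log_add _ x z (by positivity)).trans ?_
  have hd : 0 < ‖(x : ℂ) - z‖ := norm_pos_iff.2 (sub_ne_zero.2 hz)
  generalize ‖(x : ℂ) - z‖ = d at hd
  have hs : σ ^ 2 ≤ 1 := pow_le_one₀ h0.le h1
  have hs0 : 0 < σ ^ 2 := by positivity
  have e4 : σ ^ 4 = σ ^ 2 * σ ^ 2 := by ring
  rcases le_total (σ ^ 2 / 2) d with h | h
  · have e : Real.log (d + σ ^ 4 / 4) = Real.log d + Real.log (1 + σ ^ 4 / 4 / d) := by
      rw [← Real.log_mul hd.ne' (by positivity)]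
      congr 1
      field_simp
    have h3 := Real.log_le_sub_one_of_pos (show 0 < 1 + σ ^ 4 / 4 / d by positivity)
    have h4 : σ ^ 4 / 4 / d ≤ σ ^ 2 / 2 := by
      rw [div_le_iff₀ hd]
      nlinarith
    linarith [le_max_left 0 (Real.log (σ ^ 2 / d))]
  · have h3 : Real.log (d + σ ^ 4 / 4) ≤ Real.log (σ ^ 2) :=
      Real.log_le_log (by positivity) (by nlinarith)
    have h4 := le_max_right 0 (Real.log (σ ^ 2 / d))
    rw [Real.log_div hs0.ne' hd.ne'] at h4 ⊢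
    linarith

theorem log_le_ht {R x : ℝ} {z : ℂ} (hx : x ∈ Icc 0 R) (hz : (x : ℂ) ≠ z) :
    Real.log ‖(x : ℂ) - z‖ ≤ Real.log (max 1 ‖z‖) + Real.log (R + 1) := by
  have hd : 0 < ‖(x : ℂ) - z‖ := norm_pos_iff.2 (sub_ne_zero.2 hz)
  have hR : 0 ≤ R := hx.1.trans hx.2
  rw [← Real.log_mul (by positivity) (by positivity)]
  refine Real.log_le_log hd ((norm_sub_le _ _).trans ?_)
  rw [Complex.norm_real, Real.norm_of_nonneg hx.1]
  nlinarith [le_max_left 1 ‖z‖, le_max_right 1 ‖z‖, hx.2]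

theorem ht_le_log {R x r : ℝ} {z : ℂ} (hR : 1 ≤ R) (hx : x ∈ Icc 0 R) (hz : (x : ℂ) ≠ z)
    (h0 : 0 < r) (h1 : r ≤ 1) :
    Real.log (max 1 ‖z‖) ≤ Real.log ‖(x : ℂ) - z‖ + (Real.log (2 * R) - Real.log r) +
      max 0 (Real.log (r / ‖(x : ℂ) - z‖)) := by
  have hd : 0 < ‖(x : ℂ) - z‖ := norm_pos_iff.2 (sub_ne_zero.2 hz)
  have h2 : ‖z‖ ≤ ‖(x : ℂ) - z‖ + R := by
    have := norm_sub_le (x : ℂ) ((x : ℂ) - z)
    rw [sub_sub_cancel, Complex.norm_real, Real.norm_of_nonneg hx.1] at this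
    linarith [hx.2]
  generalize ‖(x : ℂ) - z‖ = d at hd h2
  have h3 : Real.log (max 1 ‖z‖) ≤ Real.log (2 * R) + Real.log (max 1 d) := by
    rw [← Real.log_mul (by positivity) (by positivity)]
    refine Real.log_le_log (by positivity) (max_le ?_ ?_) <;>
      nlinarith [le_max_left 1 d, le_max_right 1 d]
  have h4 := Real.log_nonpos h0.le h1
  have h5 := le_max_left 0 (Real.log (r / d))
  have h6 := le_max_right 0 (Real.log (r / d))
  rw [Real.log_div h0.ne' hd.ne'] at h5 h6 ⊢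
  rcases le_total 1 d with h | h
  · rw [max_eq_right h] at h3
    linarith
  · rw [max_eq_left h, Real.log_one] at h3
    linarith

theorem int_max {μ : Measure ℝ} [IsProbabilityMeasure μ] {z : ℂ} {r : ℝ} (hr : 0 < r)
    (h1 : ∀ᵐ (x : ℝ) ∂μ, (x : ℂ) ≠ z) (h2 : Integrable (fun x : ℝ => Real.log ‖(x : ℂ) - z‖) μ) :
    Integrable (fun x : ℝ => max 0 (Real.log (r / ‖(x : ℂ) - z‖))) μ := by
  refine (((integrable_const (Real.log r)).sub h2).pos_part).congr ?_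
  filter_upwards [h1] with x hx
  have hd : 0 < ‖(x : ℂ) - z‖ := norm_pos_iff.2 (sub_ne_zero.2 hx)
  simp only [Pi.sub_apply]
  rw [Real.log_div hr.ne' hd.ne', max_comm]

section
variable {κ : Type} [DecidableEq κ] {s : Finset κ} {r : κ → Finset ℂ} {a : κ → ℝ}

theorem pair_sum (hpair : ∀ q ∈ s, ∀ q' ∈ s, ∀ δ : ℝ, 0 < δ → δ ≤ 1 →
      (if q = q' then (r q).card * Real.log δ else 0) ≤
        ∑ z ∈ r q, ∑ w ∈ r q', K δ z w + (r q').card * a q + (r q).card * a q')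
    {J : Finset κ} (hJ : J ⊆ s) {v : κ → ℝ} {σ : ℝ} (hv : ∀ q ∈ J, 0 ≤ v q ∧ v q ≤ σ)
    {δ : ℝ} (h0 : 0 < δ) (h1 : δ ≤ 1) :
    σ * (∑ q ∈ J, v q * (r q).card) * Real.log δ -
        2 * (∑ q ∈ J, v q * (r q).card) * ∑ q ∈ J, v q * a q ≤
      ∑ i ∈ J.sigma r, ∑ j ∈ J.sigma r, v i.1 * v j.1 * K δ i.2 j.2 := by
  have hl := Real.log_nonpos h0.le h1
  have e1 : ∑ i ∈ J.sigma r, ∑ j ∈ J.sigma r, v i.1 * v j.1 * K δ i.2 j.2 =
      ∑ q ∈ J, ∑ q' ∈ J, v q * v q' * ∑ z ∈ r q, ∑ w ∈ r q', K δ z w := by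
    rw [Finset.sum_sigma]
    refine Finset.sum_congr rfl fun q _ => ?_
    simp_rw [Finset.sum_sigma]
    rw [Finset.sum_comm]
    refine Finset.sum_congr rfl fun q' _ => ?_
    simp_rw [Finset.mul_sum]
  have e2 : 2 * (∑ q ∈ J, v q * (r q).card) * ∑ q ∈ J, v q * a q =
      ∑ q ∈ J, ∑ q' ∈ J, v q * v q' * ((r q').card * a q + (r q).card * a q') := by
    have e3 : (∑ q ∈ J, v q * (r q).card) * ∑ q ∈ J, v q * a q =
        ∑ q ∈ J, ∑ q' ∈ J, v q * v q' * ((r q).card * a q') := by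
      rw [Finset.sum_mul_sum]
      exact Finset.sum_congr rfl fun q _ => Finset.sum_congr rfl fun q' _ => by ring
    have e4 : (∑ q ∈ J, v q * (r q).card) * ∑ q ∈ J, v q * a q =
        ∑ q ∈ J, ∑ q' ∈ J, v q * v q' * ((r q').card * a q) := by
      rw [mul_comm, Finset.sum_mul_sum]
      exact Finset.sum_congr rfl fun q _ => Finset.sum_congr rfl fun q' _ => by ring
    simp_rw [mul_add, Finset.sum_add_distrib]
    rw [← e3, ← e4]
    ring
  rw [e1, e2, sub_le_iff_le_add, ← Finset.sum_add_distrib, Finset.mul_sum, Finset.sum_mul]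
  refine Finset.sum_le_sum fun q hq => ?_
  rw [← Finset.sum_add_distrib]
  have h2 : ∑ q' ∈ J, v q * v q' * (if q = q' then (r q).card * Real.log δ else 0) ≤
      ∑ q' ∈ J, (v q * v q' * ∑ z ∈ r q, ∑ w ∈ r q', K δ z w +
        v q * v q' * ((r q').card * a q + (r q).card * a q')) := by
    refine Finset.sum_le_sum fun q' hq' => ?_
    have := mul_le_mul_of_nonneg_left (hpair q (hJ hq) q' (hJ hq') δ h0 h1)
      (mul_nonneg (hv q hq).1 (hv q' hq').1)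
    linarith
  refine le_trans ?_ h2
  simp only [mul_ite, mul_zero, Finset.sum_ite_eq, hq, if_true]
  have h3 : 0 ≤ v q * (r q).card * -Real.log δ :=
    mul_nonneg (mul_nonneg (hv q hq).1 (Nat.cast_nonneg _)) (by linarith)
  nlinarith [mul_le_mul_of_nonneg_right (hv q hq).2 h3]

theorem lemA {μ : Measure ℝ} [IsProbabilityMeasure μ] {R : ℝ} (hμ : Supp μ R)
    (ha : ∀ q ∈ s, 0 ≤ a q)
    (hpair : ∀ q ∈ s, ∀ q' ∈ s, ∀ δ : ℝ, 0 < δ → δ ≤ 1 →
      (if q = q' then (r q).card * Real.log δ else 0) ≤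
        ∑ z ∈ r q, ∑ w ∈ r q', K δ z w + (r q').card * a q + (r q).card * a q')
    {J : Finset κ} (hJ : J ⊆ s) {v : κ → ℝ} {σ : ℝ} (hσ : 0 ≤ σ)
    (hv : ∀ q ∈ J, 0 ≤ v q ∧ v q ≤ σ)
    {ρ δ θ : ℝ} (h0 : 0 < ρ) (h1 : ρ ≤ δ) (h2 : δ ≤ 1) (h3 : 0 < θ) (h4 : θ ≤ 1) :
    (∑ q ∈ J, v q * (r q).card) * (En δ μ μ - (En δ μ μ - En ρ μ μ) / θ) +
        σ * (Real.log δ + θ * Real.log ρ) ≤
      2 * ∑ q ∈ J, v q * (a q + ∑ z ∈ r q, ∫ x : ℝ, K ρ x z ∂μ) := by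
  have hk := key μ R hμ _ (J.sigma r) (fun i => v i.1) (fun i => i.2) ρ δ θ
    (fun i hi => (hv _ (Finset.mem_sigma.1 hi).1).1) h0 h1 h3 h4
  have p1 := pair_sum hpair hJ hv (h0.trans_le h1) h2
  have p2 := pair_sum hpair hJ hv h0 (h1.trans h2)
  have e1 : ∑ i ∈ J.sigma r, v i.1 = ∑ q ∈ J, v q * (r q).card := by
    rw [Finset.sum_sigma]
    exact Finset.sum_congr rfl fun q _ => by simp [mul_comm]
  have e2 : ∑ q ∈ J, v q * (a q + ∑ z ∈ r q, ∫ x : ℝ, K ρ x z ∂μ) =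
      ∑ q ∈ J, v q * a q + ∑ i ∈ J.sigma r, v i.1 * ∫ x : ℝ, K ρ x i.2 ∂μ := by
    rw [Finset.sum_sigma, ← Finset.sum_add_distrib]
    exact Finset.sum_congr rfl fun q _ => by rw [mul_add, Finset.mul_sum]
  rw [e1] at hk
  have hl1 := Real.log_nonpos (h0.trans_le h1).le h2
  have hl2 := Real.log_nonpos h0.le (h1.trans h2)
  have hm : 0 ≤ ∑ q ∈ J, v q * (r q).card :=
    Finset.sum_nonneg fun q hq => mul_nonneg (hv q hq).1 (Nat.cast_nonneg _)
  rcases hm.eq_or_lt with h | h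
  · have h5 := (Finset.sum_eq_zero_iff_of_nonneg
      fun q hq => mul_nonneg (hv q hq).1 (Nat.cast_nonneg _)).1 h.symm
    have h6 : 0 ≤ ∑ q ∈ J, v q * (a q + ∑ z ∈ r q, ∫ x : ℝ, K ρ x z ∂μ) := by
      refine Finset.sum_nonneg fun q hq => ?_
      rcases mul_eq_zero.1 (h5 q hq) with h7 | h7
      · rw [h7, zero_mul]
      · rw [Finset.card_eq_zero.1 (Nat.cast_eq_zero.1 h7), Finset.sum_empty, add_zero]
        exact mul_nonneg (hv q hq).1 (ha q (hJ hq))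
    rw [← h, zero_mul, zero_add]
    have : σ * (Real.log δ + θ * Real.log ρ) ≤ 0 :=
      mul_nonpos_of_nonneg_of_nonpos hσ (by nlinarith)
    linarith
  · rw [e2]
    refine le_of_mul_le_mul_left ?_ h
    generalize ∑ q ∈ J, v q * (r q).card = m at *
    have q1 := mul_le_mul_of_nonneg_left p1 (sub_nonneg.2 h4)
    have q2 := mul_le_mul_of_nonneg_left p2 h3.le
    have q3 : 0 ≤ θ * (σ * m * -Real.log δ) := by
      have : 0 ≤ -Real.log δ := by linarith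
      positivity
    nlinarith

end

theorem big_lam (C Λ₀ : ℝ) :
    ∃ Λ : ℝ, Λ₀ ≤ Λ ∧ 1 ≤ Λ ∧ C * Λ ^ 2 ≤ Real.exp (Λ / 2) := by
  refine ⟨max (max Λ₀ 1) (48 * C), (le_max_left _ _).trans (le_max_left _ _),
    (le_max_right _ _).trans (le_max_left _ _), ?_⟩
  have h1 : 48 * C ≤ max (max Λ₀ 1) (48 * C) := le_max_right _ _
  have h2 : 1 ≤ max (max Λ₀ 1) (48 * C) := (le_max_right _ _).trans (le_max_left _ _)
  generalize max (max Λ₀ 1) (48 * C) = Λ at h1 h2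
  have h3 := Real.pow_div_factorial_le_exp (Λ / 2) (by positivity) 3
  refine le_trans ?_ h3
  simp only [Nat.factorial, Nat.succ_eq_add_one]
  norm_num
  nlinarith [sq_nonneg Λ]

end Pool.Agent.H39Z.SSS
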