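import Pool.Agent.H39Z.SSS.CoreA

/-! The head and the tail of a dual certificate. -/

set_option autoImplicit false

namespace Pool.Agent.H39Z.SSS

open MeasureTheory Set

section
variable {κ : Type} [DecidableEq κ] {s : Finset κ} {r : κ → Finset ℂ} {a : κ → ℝ}
  {μ : Measure ℝ} [IsProbabilityMeasure μ]

omit [DecidableEq κ] in
theorem int_F (hi : ∀ q ∈ s, ∀ z ∈ r q, Integrable (fun x : ℝ => Real.log ‖(x : ℂ) - z‖) μ)
    {J : Finset κ} (hJ : J ⊆ s) (w : κ → ℝ) :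
    Integrable (fun x : ℝ => ∑ q ∈ J, w q * (a q + ∑ z ∈ r q, Real.log ‖(x : ℂ) - z‖)) μ ∧
      ∫ x : ℝ, ∑ q ∈ J, w q * (a q + ∑ z ∈ r q, Real.log ‖(x : ℂ) - z‖) ∂μ =
        ∑ q ∈ J, w q * (a q + ∑ z ∈ r q, ∫ x : ℝ, Real.log ‖(x : ℂ) - z‖ ∂μ) := by
  have h1 : ∀ q ∈ J, Integrable (fun x : ℝ => ∑ z ∈ r q, Real.log ‖(x : ℂ) - z‖) μ :=
    fun q hq => integrable_finsetSum _ (hi q (hJ hq))
  have h2 : ∀ q ∈ J,
      Integrable (fun x : ℝ => w q * (a q + ∑ z ∈ r q, Real.log ‖(x : ℂ) - z‖)) μ :=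
    fun q hq => ((integrable_const _).add (h1 q hq)).const_mul _
  refine ⟨integrable_finsetSum _ h2, ?_⟩
  rw [integral_finsetSum _ h2]
  refine Finset.sum_congr rfl fun q hq => ?_
  rw [integral_const_mul, integral_add (integrable_const _) (h1 q hq),
    integral_finsetSum _ (hi q (hJ hq))]
  simp

omit [DecidableEq κ] in
theorem int_N (hz : ∀ q ∈ s, ∀ z ∈ r q, ∀ᵐ (x : ℝ) ∂μ, (x : ℂ) ≠ z)
    (hi : ∀ q ∈ s, ∀ z ∈ r q, Integrable (fun x : ℝ => Real.log ‖(x : ℂ) - z‖) μ)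
    {J : Finset κ} (hJ : J ⊆ s) (w : κ → ℝ) {ρ : ℝ} (hρ : 0 < ρ) :
    Integrable (fun x : ℝ => ∑ q ∈ J, w q * ∑ z ∈ r q, max 0 (Real.log (ρ / ‖(x : ℂ) - z‖))) μ ∧
      ∫ x : ℝ, ∑ q ∈ J, w q * ∑ z ∈ r q, max 0 (Real.log (ρ / ‖(x : ℂ) - z‖)) ∂μ =
        ∑ q ∈ J, w q * ∑ z ∈ r q, ∫ x : ℝ, max 0 (Real.log (ρ / ‖(x : ℂ) - z‖)) ∂μ := by
  have h0 : ∀ q ∈ J, ∀ z ∈ r q,
      Integrable (fun x : ℝ => max 0 (Real.log (ρ / ‖(x : ℂ) - z‖))) μ :=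
    fun q hq z hz' => int_max hρ (hz q (hJ hq) z hz') (hi q (hJ hq) z hz')
  have h2 : ∀ q ∈ J,
      Integrable (fun x : ℝ => w q * ∑ z ∈ r q, max 0 (Real.log (ρ / ‖(x : ℂ) - z‖))) μ :=
    fun q hq => (integrable_finsetSum _ (h0 q hq)).const_mul _
  refine ⟨integrable_finsetSum _ h2, ?_⟩
  rw [integral_finsetSum _ h2]
  refine Finset.sum_congr rfl fun q hq => ?_
  rw [integral_const_mul, integral_finsetSum _ (h0 q hq)]

/-- the estimate of the mass of a part of the certificate -/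
theorem part_le {R : ℝ} (hμ : Supp μ R) (ha : ∀ q ∈ s, 0 ≤ a q)
    (hpair : ∀ q ∈ s, ∀ q' ∈ s, ∀ δ : ℝ, 0 < δ → δ ≤ 1 →
      (if q = q' then (r q).card * Real.log δ else 0) ≤
        ∑ z ∈ r q, ∑ w ∈ r q', K δ z w + (r q').card * a q + (r q).card * a q')
    (hz : ∀ q ∈ s, ∀ z ∈ r q, ∀ᵐ (x : ℝ) ∂μ, (x : ℂ) ≠ z)
    (hi : ∀ q ∈ s, ∀ z ∈ r q, Integrable (fun x : ℝ => Real.log ‖(x : ℂ) - z‖) μ)
    {J : Finset κ} (hJ : J ⊆ s) {v : κ → ℝ} {τ : ℝ} (hτ : 0 ≤ τ)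
    (hv : ∀ q ∈ J, 0 ≤ v q ∧ v q ≤ τ) {I δ θ σ : ℝ} (hI : ∀ b, 0 < b → I ≤ En b μ μ)
    (hδ : En δ μ μ ≤ I + θ * I / 4) (h0 : 0 < σ) (hσ : σ ≤ 1) (h1 : σ ^ 4 / 4 ≤ δ) (h2 : δ ≤ 1)
    (h3 : 0 < θ) (h4 : θ ≤ 1) (h5 : σ ^ 2 ≤ I / 4) :
    (∑ q ∈ J, v q * (r q).card) * (I / 4) ≤
      ∑ q ∈ J, v q * (a q + ∑ z ∈ r q, ∫ x : ℝ, Real.log ‖(x : ℂ) - z‖ ∂μ) +
        ∑ q ∈ J, v q * ∑ z ∈ r q, ∫ x : ℝ, max 0 (Real.log (σ ^ 2 / ‖(x : ℂ) - z‖)) ∂μ +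
        τ * (1 - Real.log δ + 2 * θ * -Real.log σ) := by
  have hρ : 0 < σ ^ 4 / 4 := by positivity
  have hA := lemA hμ ha hpair hJ hτ hv hρ h1 h2 h3 h4
  have hm : 0 ≤ ∑ q ∈ J, v q * (r q).card :=
    Finset.sum_nonneg fun q hq => mul_nonneg (hv q hq).1 (Nat.cast_nonneg _)
  have hX : 3 * I / 4 ≤ En δ μ μ - (En δ μ μ - En (σ ^ 4 / 4) μ μ) / θ := by
    have a1 := hI δ (hρ.trans_le h1)
    have a2 := hI _ hρ
    have a3 : (En δ μ μ - En (σ ^ 4 / 4) μ μ) / θ ≤ I / 4 := by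
      rw [div_le_iff₀ h3]
      linarith
    linarith
  have hK : ∀ q ∈ J, ∀ z ∈ r q, ∫ x : ℝ, K (σ ^ 4 / 4) x z ∂μ ≤
      ∫ x : ℝ, Real.log ‖(x : ℂ) - z‖ ∂μ + σ ^ 2 / 2 +
        ∫ x : ℝ, max 0 (Real.log (σ ^ 2 / ‖(x : ℂ) - z‖)) ∂μ := by
    intro q hq z hz'
    have i1 := hi q (hJ hq) z hz'
    have i2 := int_max (r := σ ^ 2) (by positivity) (hz q (hJ hq) z hz') i1
    have i3 := integral_add (i1.add (integrable_const (σ ^ 2 / 2))) i2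
    have i4 := integral_add i1 (integrable_const (σ ^ 2 / 2))
    simp only [Pi.add_apply] at i3
    rw [i4, integral_const, probReal_univ, one_smul] at i3
    rw [← i3]
    refine integral_mono_ae (hμ.int (cont_K hρ z)) ((i1.add (integrable_const _)).add i2) ?_
    filter_upwards [hz q (hJ hq) z hz'] with x hx
    exact K_le_log hx h0 hσ
  have hS : ∑ q ∈ J, v q * (a q + ∑ z ∈ r q, ∫ x : ℝ, K (σ ^ 4 / 4) x z ∂μ) ≤
      ∑ q ∈ J, v q * (a q + ∑ z ∈ r q, ∫ x : ℝ, Real.log ‖(x : ℂ) - z‖ ∂μ) +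
        ∑ q ∈ J, v q * ∑ z ∈ r q, ∫ x : ℝ, max 0 (Real.log (σ ^ 2 / ‖(x : ℂ) - z‖)) ∂μ +
        (∑ q ∈ J, v q * (r q).card) * (σ ^ 2 / 2) := by
    rw [Finset.sum_mul, ← Finset.sum_add_distrib, ← Finset.sum_add_distrib]
    refine Finset.sum_le_sum fun q hq => ?_
    have b1 := Finset.sum_le_sum (hK q hq)
    rw [Finset.sum_add_distrib, Finset.sum_add_distrib, Finset.sum_const, nsmul_eq_mul] at b1
    have := mul_le_mul_of_nonneg_left b1 (hv q hq).1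
    linarith
  have hl : Real.log (σ ^ 4 / 4) = 4 * Real.log σ - Real.log 4 := by
    rw [Real.log_div (by positivity) (by norm_num), Real.log_pow]
    norm_num
  have hl4 : Real.log 4 ≤ 2 := by
    have : Real.log 4 = 2 * Real.log 2 := by
      rw [show (4 : ℝ) = 2 ^ 2 by norm_num, Real.log_pow]
      norm_num
    linarith [Real.log_two_lt_d9]
  have hl0 : 0 ≤ Real.log 4 := Real.log_nonneg (by norm_num)
  have hlδ := Real.log_nonpos (hρ.trans_le h1).le h2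
  rw [hl] at hA
  have c1 := mul_le_mul_of_nonneg_left hX hm
  have c2 := mul_le_mul_of_nonneg_left h5 hm
  have c3 : τ * (θ * Real.log 4) ≤ τ * 2 := mul_le_mul_of_nonneg_left (by nlinarith) hτ
  have c4 : 0 ≤ τ * -Real.log δ := mul_nonneg hτ (by linarith)
  nlinarith

omit [DecidableEq κ] in
/-- the tail function is small in mean -/
theorem tail_le {R : ℝ} (hR : 1 ≤ R) (hμ : Supp μ R) (ha : ∀ q ∈ s, 0 ≤ a q)
    (hz : ∀ q ∈ s, ∀ z ∈ r q, ∀ᵐ (x : ℝ) ∂μ, (x : ℂ) ≠ z)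
    (hi : ∀ q ∈ s, ∀ z ∈ r q, Integrable (fun x : ℝ => Real.log ‖(x : ℂ) - z‖) μ)
    {J : Finset κ} (hJ : J ⊆ s) {v : κ → ℝ} (hv : ∀ q ∈ J, 0 ≤ v q) {ρ : ℝ} (h0 : 0 < ρ)
    (h1 : ρ ≤ 1)
    (hl : 0 ≤ ∑ q ∈ J, v q * (a q + ∑ z ∈ r q, ∫ x : ℝ, Real.log ‖(x : ℂ) - z‖ ∂μ)) :
    ∫ x : ℝ, |∑ q ∈ J, v q * (a q + ∑ z ∈ r q, Real.log ‖(x : ℂ) - z‖)| ∂μ ≤
      2 * (∑ q ∈ J, v q * (a q + ∑ z ∈ r q, ∫ x : ℝ, Real.log ‖(x : ℂ) - z‖ ∂μ) +
        ∑ q ∈ J, v q * ∑ z ∈ r q, ∫ x : ℝ, max 0 (Real.log (ρ / ‖(x : ℂ) - z‖)) ∂μ +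
        (∑ q ∈ J, v q * (r q).card) * (Real.log (2 * R) - Real.log ρ + Real.log (R + 1))) := by
  obtain ⟨f1, f2⟩ := int_F (a := a) hi hJ v
  obtain ⟨n1, n2⟩ := int_N hz hi hJ v h0
  have hae : ∀ᵐ (x : ℝ) ∂μ, ∀ q ∈ J, ∀ z ∈ r q, (x : ℂ) ≠ z :=
    (Filter.eventually_all_finset J).2 fun q hq =>
      (Filter.eventually_all_finset (r q)).2 (hz q (hJ hq))
  set H := ∑ q ∈ J, v q * (a q + ∑ z ∈ r q, Real.log (max 1 ‖z‖)) with hH
  set m := ∑ q ∈ J, v q * (r q).card with hm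
  have hm0 : 0 ≤ m := Finset.sum_nonneg fun q hq => mul_nonneg (hv q hq) (Nat.cast_nonneg _)
  have hH0 : 0 ≤ H := Finset.sum_nonneg fun q hq => mul_nonneg (hv q hq)
    (add_nonneg (ha q (hJ hq)) (Finset.sum_nonneg fun z _ => Real.log_nonneg (le_max_left _ _)))
  have hlR : 0 ≤ Real.log (R + 1) := Real.log_nonneg (by linarith)
  have up : ∀ᵐ (x : ℝ) ∂μ, ∑ q ∈ J, v q * (a q + ∑ z ∈ r q, Real.log ‖(x : ℂ) - z‖) ≤
      H + m * Real.log (R + 1) := by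
    filter_upwards [hae, hμ] with x hx hx'
    rw [hH, hm, Finset.sum_mul, ← Finset.sum_add_distrib]
    refine Finset.sum_le_sum fun q hq => ?_
    have b1 := Finset.sum_le_sum fun z hz' => log_le_ht hx' (hx q hq z hz')
    rw [Finset.sum_add_distrib, Finset.sum_const, nsmul_eq_mul] at b1
    have := mul_le_mul_of_nonneg_left b1 (hv q hq)
    linarith
  have lo : ∀ᵐ (x : ℝ) ∂μ, H - m * (Real.log (2 * R) - Real.log ρ) ≤
      ∑ q ∈ J, v q * (a q + ∑ z ∈ r q, Real.log ‖(x : ℂ) - z‖) +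
        ∑ q ∈ J, v q * ∑ z ∈ r q, max 0 (Real.log (ρ / ‖(x : ℂ) - z‖)) := by
    filter_upwards [hae, hμ] with x hx hx'
    rw [hH, hm, Finset.sum_mul, ← Finset.sum_add_distrib, ← Finset.sum_sub_distrib]
    refine Finset.sum_le_sum fun q hq => ?_
    have b1 := Finset.sum_le_sum fun z hz' => ht_le_log hR hx' (hx q hq z hz') h0 h1
    rw [Finset.sum_add_distrib, Finset.sum_add_distrib, Finset.sum_const, nsmul_eq_mul] at b1
    have := mul_le_mul_of_nonneg_left b1 (hv q hq)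
    linarith
  have lo2 := integral_mono_ae (integrable_const _) (f1.add n1) lo
  have e1 := integral_add f1 n1
  simp only [Pi.add_apply] at lo2
  rw [e1, f2, n2, integral_const, probReal_univ, one_smul] at lo2
  have up2 := integral_mono_ae f1.abs
    ((integrable_const (2 * (H + m * Real.log (R + 1)))).sub f1) (by
      filter_upwards [up] with x hx
      simp only [Pi.sub_apply]
      have := mul_nonneg hm0 hlR
      exact abs_le.2 ⟨by linarith, by linarith⟩)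
  have e2 := integral_sub (integrable_const (μ := μ) (2 * (H + m * Real.log (R + 1)))) f1
  simp only [Pi.sub_apply] at up2
  rw [e2, f2, integral_const, probReal_univ, one_smul] at up2
  linarith

omit [DecidableEq κ] in
/-- first moment and nearby mass of a certificate -/
theorem cert_int (hN : S_N) (hM : S_MASS) {L : ℝ} (hL : 12 ≤ L) (hμ : Supp μ (4 * L))
    (ha : ∀ q ∈ s, 0 ≤ a q)
    (hz : ∀ q ∈ s, ∀ z ∈ r q, ∀ᵐ (x : ℝ) ∂μ, (x : ℂ) ≠ z)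
    (hi : ∀ q ∈ s, ∀ z ∈ r q, Integrable (fun x : ℝ => Real.log ‖(x : ℂ) - z‖) μ)
    (n : κ → ℕ) {M : ℕ} (hM0 : 0 < M) {ε σ : ℝ} (hε : ε ≤ 1) (h0 : 0 < σ) (h1 : σ ≤ 1)
    (hc : ∀ x ∈ Icc 0 (4 * L), ∏ q ∈ s, (Real.exp (a q) * ∏ z ∈ r q, ‖(x : ℂ) - z‖) ^ n q ≤
      Real.exp (M * (x - (∫ y, y ∂μ - ε)))) :
    ∑ q ∈ s, (n q / M : ℝ) * (r q).card ≤ 49 ∧
    (∀ᵐ (x : ℝ) ∂μ, 0 ≤ x - (∫ y, y ∂μ - ε) -
      ∑ q ∈ s, (n q / M : ℝ) * (a q + ∑ z ∈ r q, Real.log ‖(x : ℂ) - z‖)) ∧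
    ∑ q ∈ s, (n q / M : ℝ) * (a q + ∑ z ∈ r q, ∫ x : ℝ, Real.log ‖(x : ℂ) - z‖ ∂μ) +
      ∑ q ∈ s, (n q / M : ℝ) * ∑ z ∈ r q, ∫ x : ℝ, max 0 (Real.log (σ ^ 2 / ‖(x : ℂ) - z‖)) ∂μ ≤
        ε + (49 + L) * σ := by
  have hM1 : (0 : ℝ) < M := by exact_mod_cast hM0
  set c := ∫ y, y ∂μ - ε with hcdef
  have hlam : 0 ≤ ∫ y, y ∂μ := integral_nonneg_of_ae (by
    filter_upwards [hμ] with x hx using hx.1)
  have hc' : ∀ x ∈ Icc 0 (4 * L), Real.exp (∑ q ∈ s, n q * a q) *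
      ∏ i ∈ s.sigma r, ‖(x : ℂ) - i.2‖ ^ n i.1 ≤ Real.exp (M * (x - c)) := by
    intro x hx
    convert hc x hx using 1
    rw [Real.exp_sum, Finset.prod_sigma, ← Finset.prod_mul_distrib]
    refine Finset.prod_congr rfl fun q _ => ?_
    rw [mul_pow, Real.exp_nat_mul, ← Finset.prod_pow]
  have hA0 : 0 ≤ ∑ q ∈ s, n q * a q :=
    Finset.sum_nonneg fun q hq => mul_nonneg (Nat.cast_nonneg _) (ha q hq)
  have hmass := (hM _ (s.sigma r) (fun i => n i.1) (fun i => i.2) M _ c hA0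
    fun x hx => hc' x ⟨hx.1, by linarith [hx.2]⟩).1
  have e1 : ∑ i ∈ s.sigma r, (n i.1 : ℝ) = M * ∑ q ∈ s, (n q / M : ℝ) * (r q).card := by
    rw [Finset.sum_sigma, Finset.mul_sum]
    refine Finset.sum_congr rfl fun q _ => ?_
    simp only [Finset.sum_const, nsmul_eq_mul]
    field_simp
  have g1 : ∑ q ∈ s, (n q / M : ℝ) * (r q).card ≤ 49 := by
    rw [e1] at hmass
    have := le_of_mul_le_mul_left hmass hM1
    linarith
  have hae : ∀ᵐ (x : ℝ) ∂μ, ∀ q ∈ s, ∀ z ∈ r q, (x : ℂ) ≠ z :=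
    (Filter.eventually_all_finset s).2 fun q hq =>
      (Filter.eventually_all_finset (r q)).2 (hz q hq)
  have e2 : ∀ x : ℝ, ∑ q ∈ s, n q * a q + ∑ i ∈ s.sigma r, n i.1 * Real.log ‖(x : ℂ) - i.2‖ =
      M * ∑ q ∈ s, (n q / M : ℝ) * (a q + ∑ z ∈ r q, Real.log ‖(x : ℂ) - z‖) := by
    intro x
    rw [Finset.sum_sigma, Finset.mul_sum, ← Finset.sum_add_distrib]
    refine Finset.sum_congr rfl fun q _ => ?_
    simp only [← Finset.mul_sum]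
    field_simp
  have e3 : ∀ x : ℝ, ∑ i ∈ s.sigma r, n i.1 * max 0 (Real.log (σ ^ 2 / ‖(x : ℂ) - i.2‖)) =
      M * ∑ q ∈ s, (n q / M : ℝ) * ∑ z ∈ r q, max 0 (Real.log (σ ^ 2 / ‖(x : ℂ) - z‖)) := by
    intro x
    rw [Finset.sum_sigma, Finset.mul_sum]
    refine Finset.sum_congr rfl fun q _ => ?_
    simp only [← Finset.mul_sum]
    field_simp
  refine ⟨g1, ?_, ?_⟩
  · filter_upwards [hae, hμ] with x hx hx'
    have b1 := hc' x hx'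
    have b2 : ∏ i ∈ s.sigma r, ‖(x : ℂ) - i.2‖ ^ n i.1 =
        Real.exp (∑ i ∈ s.sigma r, n i.1 * Real.log ‖(x : ℂ) - i.2‖) := by
      rw [Real.exp_sum]
      refine Finset.prod_congr rfl fun i hi' => ?_
      have := Finset.mem_sigma.1 hi'
      rw [Real.exp_nat_mul, Real.exp_log (norm_pos_iff.2 (sub_ne_zero.2 (hx _ this.1 _ this.2)))]
    rw [b2, ← Real.exp_add, Real.exp_le_exp, e2] at b1
    have := le_of_mul_le_mul_left b1 hM1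
    linarith
  · obtain ⟨f1, f2⟩ := int_F (a := a) hi subset_rfl fun q => (n q / M : ℝ)
    obtain ⟨n1, n2⟩ := int_N hz hi subset_rfl (fun q => (n q / M : ℝ))
      (show 0 < σ ^ 2 by positivity)
    have ix : Integrable (fun x : ℝ => x) μ := hμ.int continuous_id
    have b0 := integral_mono_ae (f1.add n1) (ix.add (integrable_const (-c + (49 + L) * σ))) (by
      filter_upwards [hae, hμ] with x hx hx'
      have b1 := hN L _ (s.sigma r) (fun i => n i.1) (fun i => i.2) M _ c hL hc' x hx'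
        (fun i hi' => hx _ (Finset.mem_sigma.1 hi').1 _ (Finset.mem_sigma.1 hi').2) (σ ^ 2)
        (by positivity) (pow_le_one₀ h0.le h1)
      rw [Real.sqrt_sq h0.le, e1, e3, sub_sub, e2] at b1
      simp only [Pi.add_apply]
      refine le_of_mul_le_mul_left ?_ hM1
      have := mul_le_mul_of_nonneg_left g1 (mul_nonneg hM1.le h0.le)
      nlinarith)
    have b2 := integral_add f1 n1
    have b3 := integral_add ix (integrable_const (μ := μ) (-c + (49 + L) * σ))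
    simp only [Pi.add_apply] at b0
    rw [b2, b3, f2, n2, integral_const, probReal_univ, one_smul] at b0
    linarith

end

end Pool.Agent.H39Z.SSS
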