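import Mathlib

/-! Arithmetic measures, logarithmic energy and the Schur-Siegel-Smyth constant. -/

set_option autoImplicit false

namespace Pool.Agent.H39Z.SSS

open MeasureTheory Polynomial

/-- The integral of an extended real function: integral of the positive part minus integral of
the negative part. -/
noncomputable def eint {X : Type} [MeasurableSpace X] (μ : Measure X) (f : X → EReal) : EReal :=
  ((∫⁻ x, (f x).toENNReal ∂μ : ENNReal) : EReal) - ((∫⁻ x, (-f x).toENNReal ∂μ : ENNReal) : EReal)

/-- `log |t|`, with value `-∞` at `t = 0`. -/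
noncomputable def elog (t : ℝ) : EReal := if t = 0 then ⊥ else ((Real.log |t| : ℝ) : EReal)

/-- `μ` is arithmetic: the integral of `log |Q|` is nonnegative for every nonzero integer
polynomial `Q`. -/
def IsArith (μ : Measure ℝ) : Prop :=
  ∀ Q : ℤ[X], Q ≠ 0 → 0 ≤ eint μ fun x => elog (aeval x Q)

/-- The logarithmic energy, the double integral of `log |x - y|`. -/
noncomputable def energy (μ : Measure ℝ) : EReal :=
  eint (μ.prod μ) fun p => elog (p.1 - p.2)

/-- Totally positive algebraic integers: all conjugates are real and nonnegative. -/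
def TotPos (α : ℂ) : Prop :=
  IsIntegral ℤ α ∧ ∀ z ∈ (minpoly ℚ α).aroots ℂ, z.im = 0 ∧ 0 ≤ z.re

/-- The mean of the conjugates. -/
noncomputable def meanTr (α : ℂ) : ℝ :=
  (((minpoly ℚ α).aroots ℂ).map Complex.re).sum / (minpoly ℚ α).natDegree

/-- The Schur-Siegel-Smyth constant: lower limit of the mean trace along distinct totally
positive algebraic integers. -/
noncomputable def lamSSS : EReal :=
  Filter.liminf (fun α : {α : ℂ // TotPos α} => ((meanTr α.1 : ℝ) : EReal)) Filter.cofinite

/-- Arithmetic probability measures with compact support in `[0, ∞)` and mean `lamSSS`. -/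
def IsOptimal (μ : Measure ℝ) : Prop :=
  IsProbabilityMeasure μ ∧ IsCompact μ.support ∧ μ.support ⊆ Set.Ici 0 ∧ IsArith μ ∧
    ((∫ x, x ∂μ : ℝ) : EReal) = lamSSS

end Pool.Agent.H39Z.SSS
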