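import Pool.Agent.H39Z.SSS.Spec
import Pool.Agent.H826Z.SSS.NormA
import Pool.Agent.H391Z.Sss

/-! The mean of an arithmetic measure bounds the Schur-Siegel-Smyth constant. -/

set_option autoImplicit false

namespace Pool.Agent.H39Z.SSS

open MeasureTheory Set Polynomial Matrix Filter

theorem eB_det {n : ℕ} (y : Fin n → ℝ) (hy : Function.Injective y) : (eB y).det ≠ 0 := by
  intro h
  obtain ⟨φ, h0, h1⟩ := Matrix.exists_mulVec_eq_zero_iff.2 h
  obtain ⟨c, hc⟩ := Pool.Agent.H826Z.SSS.interp y hy φ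
  have h2 : ∀ l, c l = 0 := by
    intro l
    have h3 := Pool.Agent.H826Z.SSS.eB_apply y φ c hc l
    rw [h1] at h3
    refine (mul_eq_zero.1 h3.symm).resolve_right (Finset.prod_ne_zero_iff.2 fun i hi => ?_)
    exact sub_ne_zero.2 fun e => (Finset.mem_erase.1 hi).1 (hy e).symm
  apply h0
  funext j
  have h4 := hc (X ^ (j : ℕ)) (by simp)
  simp only [h2, zero_mul, Finset.sum_const_zero, coeff_X_pow, Fin.val_inj, ite_mul, one_mul,
    Finset.sum_ite_eq', Finset.mem_univ, if_true] at h4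
  exact h4

theorem smith (hS : S_SWEET) (hN : S_NORM) (hT : S_TRANS) (hB : S_BUILD) (hA : S_ALG) :
    S_SMITH := by
  intro ν _ R hR hν hAr
  by_contra h
  push Not at h
  obtain ⟨c, c1, c2⟩ := EReal.lt_iff_exists_real_btwn.1 h
  have c3 : ∫ x, x ∂ν < c := by exact_mod_cast c1
  have hm : 0 ≤ ∫ x, x ∂ν := integral_nonneg_of_ae (by
    filter_upwards [hν] with x hx using hx.1)
  set ε := (c - ∫ x, x ∂ν) / 2 with hε
  have ε0 : 0 < ε := by linarith
  obtain ⟨B, α, q, α0, α1, B1, q1, q2, q3, q4⟩ := hS ν R ε hR hν hAr ε0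
  obtain ⟨c₀, c₀0, hc₀⟩ := hN B α q α0 α1 B1 q1 q2 q3
  have hmono : Monotone q := fun s t h => by
    have := q1 s t h
    nlinarith [mul_nonneg α0.le (sub_nonneg.2 h)]
  refine absurd (hA c fun N₀ => ?_) (not_le.2 c2)
  have e1 : ∀ᶠ k : ℕ in atTop, (k : ℝ) ^ 48 / 4 ^ k < c₀ * α / 16 :=
    (tendsto_pow_const_div_const_pow_of_one_lt 48 (by norm_num)).eventually
      (gt_mem_nhds (by positivity))
  have e2 : ∀ᶠ k : ℕ in atTop, (2 * B + 17) / ε ≤ (k : ℝ) :=
    tendsto_natCast_atTop_atTop.eventually_ge_atTop _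
  obtain ⟨k, ⟨k1, k2⟩, k3, k4⟩ :=
    ((e1.and e2).and ((eventually_ge_atTop N₀).and (eventually_ge_atTop 1))).exists
  obtain ⟨n, hn⟩ : ∃ n, n = k ^ 3 := ⟨_, rfl⟩
  have n0 : 0 < n := by rw [hn]; positivity
  have n1 : (1 : ℝ) ≤ n := by exact_mod_cast n0
  have k5 : (1 : ℝ) ≤ k := by exact_mod_cast k4
  have nk : (n : ℝ) = (k : ℝ) ^ 3 := by rw [hn]; push_cast; ring
  let y : Fin n → ℝ := fun i => q ((((i : ℕ) : ℝ) + 1) / n)
  have hmem : ∀ i : Fin n, (((i : ℕ) : ℝ) + 1) / n ∈ Icc (0 : ℝ) 1 := by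
    intro i
    refine ⟨by positivity, ?_⟩
    rw [div_le_one (by positivity)]
    exact_mod_cast i.2
  have gap : ∀ i j : Fin n, i < j → y i + α / n ≤ y j := by
    intro i j hij
    have h1 : ((i : ℕ) : ℝ) + 1 ≤ (j : ℕ) := by exact_mod_cast hij
    have h2 : (((i : ℕ) : ℝ) + 1) / n ≤ (((j : ℕ) : ℝ) + 1) / n :=
      div_le_div_of_nonneg_right (by linarith) (by positivity)
    refine le_trans ?_ (q1 _ _ h2)
    have h3 : 1 / (n : ℝ) ≤ (((j : ℕ) : ℝ) + 1) / n - (((i : ℕ) : ℝ) + 1) / n := by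
      rw [← sub_div]; gcongr; linarith
    have := mul_le_mul_of_nonneg_left h3 α0.le
    simp only [y]
    rw [mul_one_div] at this
    linarith
  have σ0 : 0 < α / n := by positivity
  have inj : Function.Injective y := by
    refine StrictMono.injective fun i j hij => ?_
    linarith [gap i j hij]
  have low : ∀ i, α / n ≤ y i := by
    intro i
    have h1 := q1 0 _ (hmem i).1
    have h2 := (q2 0 ⟨le_rfl, zero_le_one⟩).1
    have h3 : 1 / (n : ℝ) ≤ (((i : ℕ) : ℝ) + 1) / n := by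
      gcongr; linarith [Nat.cast_nonneg (α := ℝ) (i : ℕ)]
    have := mul_le_mul_of_nonneg_left h3 α0.le
    rw [mul_one_div] at this
    simp only [y]
    linarith
  obtain ⟨P, p1, p2, ρ, p3, p4, p5, p6⟩ := hB n k y (α / n) B (2 * (n : ℝ) ^ 2 / (c₀ / n ^ 12)) n0
    σ0 ((div_le_one (by positivity)).2 (α1.trans n1)) low (fun i => (q2 _ (hmem i)).2) gap
    (by positivity) (by
      rw [div_lt_iff₀ (by positivity)] at k1
      have : 8 * (n : ℝ) * (2 * (n : ℝ) ^ 2 / (c₀ / n ^ 12)) / (α / n) =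
          16 * (k : ℝ) ^ 48 / (c₀ * α) := by
        rw [nk]; field_simp; norm_num
      rw [this, div_le_iff₀ (by positivity)]
      linarith)
    (hT n (eB y) (c₀ / n ^ 12) (eB_det y inj) (by positivity) (hc₀ n n0))
  refine ⟨n + k, P, by omega, p1, p2, ρ, p3, p4, p5, p6.trans ?_⟩
  have r1 := (abs_le.1 (Pool.Agent.H391Z.Sss.rs_mono q hmono n n0
    (fun i => (((i : ℕ) : ℝ) + 1) / n) fun j => ⟨by gcongr; linarith, le_rfl⟩)).2
  have r2 := (q2 0 ⟨le_rfl, zero_le_one⟩).1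
  have r3 := (q2 1 ⟨zero_le_one, le_rfl⟩).2
  have r4 := mul_le_mul_of_nonneg_left q4 (show (0 : ℝ) ≤ n by positivity)
  have r5 : (n : ℝ) * (α / n) = α := by field_simp
  rw [div_le_iff₀ ε0] at k2
  have r6 : B + 1 + k * (B + 8 * k + 8) ≤ n * ε := by
    have h1 : (k : ℝ) ≤ k ^ 2 := by nlinarith
    have h2 : (1 : ℝ) ≤ k ^ 2 := by nlinarith
    have h3 := mul_le_mul_of_nonneg_left k2 (sq_nonneg (k : ℝ))
    rw [nk]
    nlinarith [mul_le_mul_of_nonneg_left h1 (show 0 ≤ B by linarith),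
      mul_le_mul_of_nonneg_left h2 (show 0 ≤ B by linarith)]
  have r7 : c = ∫ x, x ∂ν + 2 * ε := by rw [hε]; ring
  have r8 : 0 ≤ c * k := mul_nonneg (by linarith) (by positivity)
  push_cast
  simp only [y]
  have r9 : c * (n + k) = n * ∫ x, x ∂ν + 2 * (n * ε) + c * k := by
    rw [mul_add, mul_comm c n]
    nth_rewrite 1 [r7]
    ring
  rw [r5, r9]
  linarith

end Pool.Agent.H39Z.SSS
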