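import Pool.Agent.H39Z.SSS.Defs

/-! Working definitions and the statements of the pieces of the proof. -/

set_option autoImplicit false

namespace Pool.Agent.H39Z.SSS

open MeasureTheory Polynomial Set Matrix

/-- concentrated on `[0, R]` -/
def Supp (μ : Measure ℝ) (R : ℝ) : Prop := ∀ᵐ x ∂μ, x ∈ Icc 0 R

/-- smoothed logarithm -/
noncomputable def S (s t : ℝ) : ℝ := Real.log (t ^ 2 + s ^ 2) / 2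

/-- smoothed logarithmic kernel on the plane (points are reflected to the upper half plane) -/
noncomputable def K (s : ℝ) (z w : ℂ) : ℝ :=
  Real.log ((z.re - w.re) ^ 2 + (|z.im| + |w.im| + s) ^ 2) / 2

/-- truncated `log⁺ (1 / y)` -/
noncomputable def lp (δ y : ℝ) : ℝ := -Real.log (min 1 (max y δ))

/-- smoothed form of arithmeticity -/
def ArT (μ : Measure ℝ) : Prop :=
  ∀ Q : ℤ[X], Q ≠ 0 → ∀ δ : ℝ, 0 < δ → 0 ≤ ∫ x, S δ (aeval x Q) ∂μ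

/-- smoothed mutual energy -/
noncomputable def En (s : ℝ) (μ ν : Measure ℝ) : ℝ := ∫ y, ∫ x, S s (x - y) ∂μ ∂ν

/-- a dual certificate on a set -/
def Cert (A : Set ℝ) (lam : ℝ) : Prop :=
  ∃ (M : ℕ) (P : ℤ[X]), 0 < M ∧ P ≠ 0 ∧ ∀ x ∈ A, |aeval x P| ≤ Real.exp (M * (x - lam))

/-- coefficient matrix of the polynomials `∏_{i ≠ l} (X - y i)` -/
noncomputable def eB {n : ℕ} (y : Fin n → ℝ) : Matrix (Fin n) (Fin n) ℝ :=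
  Matrix.of fun l j => (∏ i ∈ Finset.univ.erase l, (X - C (y i))).coeff j

/-- the set of complex roots -/
noncomputable def rt (q : ℤ[X]) : Finset ℂ := by classical exact (q.aroots ℂ).toFinset

/-- monic integer polynomials with distinct nonnegative roots -/
def Good (P : ℤ[X]) (N : ℕ) (T : ℝ) : Prop :=
  P.Monic ∧ P.natDegree = N ∧ ∃ ρ : Fin N → ℝ, Function.Injective ρ ∧ (∀ i, 0 ≤ ρ i) ∧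
    P.map (Int.castRingHom ℝ) = ∏ i, (X - C (ρ i)) ∧ ∑ i, ρ i ≤ T

def S_T : Prop :=
  ∀ (X : Type) [MeasurableSpace X] (μ : Measure X) [IsProbabilityMeasure μ] (f : X → ℝ) (B c : ℝ),
    Measurable f → (∀ᵐ x ∂μ, |f x| ≤ B) → (∀ δ : ℝ, 0 < δ → δ ≤ 1 → c ≤ ∫ x, S δ (f x) ∂μ) →
    (∀ᵐ x ∂μ, f x ≠ 0) ∧ Integrable (fun x => Real.log |f x|) μ ∧ c ≤ ∫ x, Real.log |f x| ∂μ

def S_U : Prop :=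
  ∀ (X : Type) [MeasurableSpace X] (μ : Measure X) (f : X → ℝ),
    Measurable f → (∀ᵐ x ∂μ, f x ≠ 0) → Integrable (fun x => Real.log |f x|) μ →
    eint μ (fun x => elog (f x)) = ((∫ x, Real.log |f x| ∂μ : ℝ) : EReal)

def S_V : Prop :=
  ∀ (X : Type) [MeasurableSpace X] (μ : Measure X) [IsProbabilityMeasure μ] (f : X → ℝ) (B : ℝ),
    Measurable f → (∀ᵐ x ∂μ, |f x| ≤ B) → eint μ (fun x => elog (f x)) ≠ ⊥ →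
    (∀ᵐ x ∂μ, f x ≠ 0) ∧ Integrable (fun x => Real.log |f x|) μ

def S_W : Prop :=
  ∀ (X : Type) [MeasurableSpace X] (μ : Measure X) [IsProbabilityMeasure μ] (f : X → ℝ) (B : ℝ),
    Measurable f → (∀ᵐ x ∂μ, |f x| ≤ B) → (∀ᵐ x ∂μ, f x ≠ 0) →
    Integrable (fun x => Real.log |f x|) μ →
    (∀ δ : ℝ, 0 < δ → Integrable (fun x => S δ (f x)) μ ∧
      ∫ x, Real.log |f x| ∂μ ≤ ∫ x, S δ (f x) ∂μ) ∧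
    ∀ ε : ℝ, 0 < ε → ∃ δ₀ : ℝ, 0 < δ₀ ∧ ∀ δ : ℝ, 0 < δ → δ ≤ δ₀ →
      ∫ x, S δ (f x) ∂μ ≤ ∫ x, Real.log |f x| ∂μ + ε

def S_DUAL : Prop :=
  ∀ R lam : ℝ, 0 < R → (∀ ε : ℝ, 0 < ε → ¬ Cert (Icc 0 R) (lam + ε)) →
    ∃ ν : Measure ℝ, IsProbabilityMeasure ν ∧ Supp ν R ∧ ArT ν ∧ ∫ x, x ∂ν ≤ lam

def S_TRANS : Prop :=
  ∀ (n : ℕ) (B : Matrix (Fin n) (Fin n) ℝ) (γ : ℝ), B.det ≠ 0 → 0 < γ →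
    (∀ φ : Fin n → ℤ, φ ≠ 0 → ∃ l, γ ≤ |(B *ᵥ fun j => (φ j : ℝ)) l|) →
    ∀ v : Fin n → ℝ, ∃ (u : Fin n → ℝ) (z : Fin n → ℤ),
      (∀ l, |u l| ≤ 2 * (n : ℝ) ^ 2 / γ) ∧ v = u ᵥ* B + fun j => (z j : ℝ)

def S_HANK : Prop :=
  ∀ (n : ℕ) (φ : ℕ → ℤ), (∃ j, j < n ∧ φ j ≠ 0) →
    ∃ (k d : ℕ) (Q : ℤ[X]), 1 ≤ k ∧ 2 * k + d = n + 1 ∧ Q ≠ 0 ∧ ∀ g : Fin d → ℝ,
      |∏ j, aeval (g j) Q| ≤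
        |(Matrix.of fun i j : Fin k => ∑ m ∈ Finset.range n,
          (X ^ ((i : ℕ) + j) * ∏ l, (X - C (g l)) : ℝ[X]).coeff m * (φ m : ℝ)).det|

def S_BUILD : Prop :=
  ∀ (n k : ℕ) (y : Fin n → ℝ) (σ B Γ : ℝ), 0 < n → 0 < σ → σ ≤ 1 → (∀ i, σ ≤ y i) →
    (∀ i, y i ≤ B) → (∀ i j, i < j → y i + σ ≤ y j) → 0 ≤ Γ → 8 * n * Γ / σ ≤ 4 ^ k →
    (∀ v : Fin n → ℝ, ∃ (u : Fin n → ℝ) (z : Fin n → ℤ),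
      (∀ l, |u l| ≤ Γ) ∧ v = u ᵥ* eB y + fun j => (z j : ℝ)) →
    ∃ P : ℤ[X], Good P (n + k) (∑ i, y i + n * σ + k * (B + 8 * k + 8))

def S_ALG : Prop :=
  ∀ lam : ℝ, (∀ N₀ : ℕ, ∃ (N : ℕ) (P : ℤ[X]), N₀ ≤ N ∧ Good P N (lam * N)) →
    lamSSS ≤ (lam : EReal)

def S_LOW : Prop := ∀ lam : ℝ, Cert (Ici 0) lam → (lam : EReal) ≤ lamSSS

def S_QUANT : Prop :=
  ∀ (ν : Measure ℝ) [IsProbabilityMeasure ν] (R : ℝ), 0 ≤ R → Supp ν R →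
    ∃ q : ℝ → ℝ, Monotone q ∧ (∀ s, q s ∈ Icc 0 R) ∧
      Measure.map q (volume.restrict (Ioc 0 1)) = ν

def S_RS : Prop :=
  ∀ (q : ℝ → ℝ) (B δ x : ℝ) (d : ℕ) (s : Fin d → ℝ), Monotone q → 0 < δ → x ∈ Icc 0 B →
    (∀ t ∈ Icc (0 : ℝ) 1, q t ∈ Icc 0 B) →
    (∀ j : Fin d, s j ∈ Icc (((j : ℕ) : ℝ) / d) ((((j : ℕ) : ℝ) + 1) / d)) →
    |∑ j, S δ (q (s j) - x) - d * ∫ t in Ioc (0 : ℝ) 1, S δ (q t - x)| ≤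
      Real.log ((B ^ 2 + δ ^ 2) / δ ^ 2)

def S_I1 : Prop :=
  ∀ a L u : ℝ, 0 < L → IntegrableOn (fun x => 1 / √|x - u|) (Icc a (a + L)) ∧
    ∫ x in Icc a (a + L), 1 / √|x - u| ≤ 4 * √L

def S_P1 : Prop :=
  ∀ (ι : Type) (t : Finset ι) (κ u : ι → ℝ) (L : ℝ), 0 < L → (∀ i ∈ t, 0 ≤ κ i) →
    ∃ s ∈ Icc 0 L, (∀ i ∈ t, s ≠ u i) ∧ ∑ i ∈ t, κ i / √|s - u i| ≤ 4 / √L * ∑ i ∈ t, κ i

def S_REG : Prop :=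
  ∀ (μ : Measure ℝ) [IsProbabilityMeasure μ] (R : ℝ), Supp μ R →
    (∀ᵐ p ∂(μ.prod μ), p.1 - p.2 ≠ 0) →
    Integrable (fun p : ℝ × ℝ => Real.log |p.1 - p.2|) (μ.prod μ) →
    ∀ η : ℝ, 0 < η → ∃ (A : Set ℝ) (C : ℝ), MeasurableSet A ∧ A ⊆ Icc 0 R ∧ 1 - η ≤ μ.real A ∧
      0 ≤ C ∧ ∀ (t : ℂ) (δ : ℝ), 0 < δ → δ ≤ 1 → ∫ x in A, lp δ ‖(x : ℂ) - t‖ ∂μ ≤ C

def S_B : Prop :=
  ∀ (μ : Measure ℝ) [IsProbabilityMeasure μ] (R W C : ℝ) (A : Set ℝ), 0 ≤ R → 0 ≤ W → 0 ≤ C →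
    MeasurableSet A → A ⊆ Icc 0 R → 7 / 8 ≤ μ.real A →
    (∀ (t : ℂ) (δ : ℝ), 0 < δ → δ ≤ 1 → ∫ x in A, lp δ ‖(x : ℂ) - t‖ ∂μ ≤ C) →
    ∃ κ Λ₀ : ℝ, 0 < κ ∧ ∀ Λ : ℝ, Λ₀ ≤ Λ →
      ∀ (ι : Type) (t : Finset ι) (w : ι → ℝ) (z : ι → ℂ) (c : ℝ), (∀ i ∈ t, 0 ≤ w i) →
        ∑ i ∈ t, w i ≤ W → (t.card : ℝ) ≤ κ * Λ → (∀ i ∈ t, ∀ᵐ (x : ℝ) ∂μ, (x : ℂ) ≠ z i) →
        Integrable (fun x : ℝ => x - c - ∑ i ∈ t, w i * Real.log ‖(x : ℂ) - z i‖) μ →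
        Real.exp (-Λ / 2) < ∫ x, |x - c - ∑ i ∈ t, w i * Real.log ‖(x : ℂ) - z i‖| ∂μ

def S_N : Prop :=
  ∀ (L : ℝ) (ι : Type) (t : Finset ι) (n : ι → ℕ) (z : ι → ℂ) (M : ℕ) (a c : ℝ), 12 ≤ L →
    (∀ x ∈ Icc 0 (4 * L),
      Real.exp a * ∏ i ∈ t, ‖(x : ℂ) - z i‖ ^ n i ≤ Real.exp (M * (x - c))) →
    ∀ x ∈ Icc 0 (4 * L), (∀ i ∈ t, (x : ℂ) ≠ z i) → ∀ r : ℝ, 0 < r → r ≤ 1 →
      ∑ i ∈ t, n i * max 0 (Real.log (r / ‖(x : ℂ) - z i‖)) ≤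
        M * (x - c) - a - ∑ i ∈ t, n i * Real.log ‖(x : ℂ) - z i‖ +
          (∑ i ∈ t, (n i : ℝ) + M * L) * √r

def S_MASS : Prop :=
  ∀ (ι : Type) (t : Finset ι) (n : ι → ℕ) (z : ι → ℂ) (M : ℕ) (a c : ℝ), 0 ≤ a →
    (∀ x ∈ Icc (0 : ℝ) 48,
      Real.exp a * ∏ i ∈ t, ‖(x : ℂ) - z i‖ ^ n i ≤ Real.exp (M * (x - c))) →
    ∑ i ∈ t, (n i : ℝ) ≤ M * (48 - c) ∧
      a + ∑ i ∈ t, n i * Real.log (max 1 ‖z i‖) ≤ 8 * (M * (48 - c))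

def S_EXT : Prop :=
  ∀ L₀ : ℝ, ∃ R₁ : ℝ, ∀ R lam : ℝ, R₁ ≤ R → 0 ≤ lam → lam ≤ L₀ →
    Cert (Icc 0 R) lam → Cert (Ici 0) lam

def S_FACT : Prop :=
  ∀ P : ℤ[X], P ≠ 0 → ∃ (s : Finset ℤ[X]) (n : ℤ[X] → ℕ),
    (∀ x : ℝ, ∏ q ∈ s, |aeval x q| ^ n q ≤ |aeval x P|) ∧
    (∀ q ∈ s, q ≠ 0 ∧ ∀ x : ℝ,
      |aeval x q| = |(q.leadingCoeff : ℝ)| * ∏ z ∈ rt q, ‖(x : ℂ) - z‖) ∧
    ∀ q ∈ s, ∀ q' ∈ s, ∀ δ : ℝ, 0 < δ → δ ≤ 1 →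
      (if q = q' then (rt q).card * Real.log δ else 0) ≤
        ∑ z ∈ rt q, ∑ w ∈ rt q', K δ z w + (rt q').card * Real.log |(q.leadingCoeff : ℝ)| +
          (rt q).card * Real.log |(q'.leadingCoeff : ℝ)|

def S_KEY : Prop :=
  ∀ (μ : Measure ℝ) [IsProbabilityMeasure μ] (R : ℝ), Supp μ R →
    ∀ (ι : Type) (t : Finset ι) (w : ι → ℝ) (z : ι → ℂ) (ρ δ θ : ℝ), (∀ i ∈ t, 0 ≤ w i) →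
      0 < ρ → ρ ≤ δ → 0 < θ → θ ≤ 1 →
      (∑ i ∈ t, w i) ^ 2 * (En δ μ μ - (En δ μ μ - En ρ μ μ) / θ) +
          (1 - θ) * ∑ i ∈ t, ∑ j ∈ t, w i * w j * K δ (z i) (z j) +
          θ * ∑ i ∈ t, ∑ j ∈ t, w i * w j * K ρ (z i) (z j) ≤
        2 * (∑ i ∈ t, w i) * ∑ i ∈ t, w i * ∫ x, K ρ (x : ℂ) (z i) ∂μ

def S_STRICT : Prop :=
  ∀ (μ ν : Measure ℝ) [IsProbabilityMeasure μ] [IsProbabilityMeasure ν] (R : ℝ),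
    Supp μ R → Supp ν R →
    (∀ ε : ℝ, 0 < ε → ∃ b : ℝ, 0 < b ∧ b ≤ 1 / 2 ∧
      -ε ≤ En b μ μ + En b ν ν - En b μ ν - En b ν μ) → μ = ν

def S_VAND : Prop :=
  ∀ (k : ℕ) (x : Fin k → ℝ) (δ : ℝ), 0 < δ → (Matrix.vandermonde x).det ≠ 0 →
    2 * Real.log |(Matrix.vandermonde x).det| + k * Real.log δ ≤ ∑ i, ∑ j, S δ (x i - x j)

def S_SERRE : Prop :=
  ∀ (μ : Measure ℝ) [IsProbabilityMeasure μ] (R : ℝ), 0 < R → Supp μ R → ArT μ →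
    ∀ δ : ℝ, 0 < δ → 0 ≤ En δ μ μ

def S_SWEET : Prop :=
  ∀ (ν : Measure ℝ) [IsProbabilityMeasure ν] (R ε : ℝ), 0 < R → Supp ν R → ArT ν → 0 < ε →
    ∃ (B α : ℝ) (q : ℝ → ℝ), 0 < α ∧ α ≤ 1 ∧ 1 ≤ B ∧ (∀ s t, s ≤ t → q s + α * (t - s) ≤ q t) ∧
      (∀ s ∈ Icc (0 : ℝ) 1, q s ∈ Icc 0 B) ∧ ArT (Measure.map q (volume.restrict (Ioc 0 1))) ∧
      ∫ s in Ioc (0 : ℝ) 1, q s ≤ ∫ x, x ∂ν + ε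

def S_NORM : Prop :=
  ∀ (B α : ℝ) (q : ℝ → ℝ), 0 < α → α ≤ 1 → 1 ≤ B → (∀ s t, s ≤ t → q s + α * (t - s) ≤ q t) →
    (∀ s ∈ Icc (0 : ℝ) 1, q s ∈ Icc 0 B) → ArT (Measure.map q (volume.restrict (Ioc 0 1))) →
    ∃ c : ℝ, 0 < c ∧ ∀ n : ℕ, 0 < n → ∀ φ : Fin n → ℤ, φ ≠ 0 →
      ∃ l, c / (n : ℝ) ^ 12 ≤
        |(eB (fun i : Fin n => q ((((i : ℕ) : ℝ) + 1) / n)) *ᵥ fun j => (φ j : ℝ)) l|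

def S_SMITH : Prop :=
  ∀ (ν : Measure ℝ) [IsProbabilityMeasure ν] (R : ℝ), 0 < R → Supp ν R → ArT ν →
    lamSSS ≤ ((∫ x, x ∂ν : ℝ) : EReal)

def S_CORE : Prop :=
  ∀ (μ : Measure ℝ) [IsProbabilityMeasure μ] (L : ℝ), 12 ≤ L → Supp μ (4 * L) → ArT μ →
    (∀ ε : ℝ, 0 < ε → Cert (Icc 0 (4 * L)) (∫ x, x ∂μ - ε)) →
    (∀ᵐ p ∂(μ.prod μ), p.1 - p.2 ≠ 0) →
    Integrable (fun p : ℝ × ℝ => Real.log |p.1 - p.2|) (μ.prod μ) →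
    ∫ p, Real.log |p.1 - p.2| ∂(μ.prod μ) ≤ 0

end Pool.Agent.H39Z.SSS
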