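import Pool.Agent.H39Z.SSS.Core
import Pool.Agent.H39Z.SSS.Smith
import Pool.Agent.H591Z.SSSlog
import Pool.Agent.H822Z.SssDual
import Pool.Agent.H187Z.Trans
import Pool.Agent.H705Z.Hank
import Pool.Agent.H516Z.SSSBuild
import Pool.Agent.H404Z.SSS.AlgLow
import Pool.Agent.H920Z.SSS.LemB
import Pool.Agent.H455Z.SSSFact
import Pool.Agent.H948Z.SerreHelp
import Pool.Agent.H826Z.SSS.Norm
import Pool.Agent.H803Z.Sweet
import Pool.Agent.H691Z.SssN

/-! Optimal measures have zero energy; existence and uniqueness of the optimal measure. -/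

set_option autoImplicit false

namespace Pool.Agent.H39Z.SSS

open MeasureTheory Set Polynomial

theorem tT : S_T := H591Z.SSSlog.hT
theorem tU : S_U := H591Z.SSSlog.hU
theorem tV : S_V := H591Z.SSSlog.hV
theorem tW : S_W := H591Z.SSSlog.hW
theorem tSerre : S_SERRE := H948Z.SerreHelp.serre key
theorem tMass : S_MASS := H691Z.Sss.mass H391Z.Sss.p1

theorem tSmith : S_SMITH :=
  smith (H803Z.sweet H391Z.Sss.quant H391Z.Sss.i1 tSerre tT tW)
    (H826Z.SSS.norm H705Z.Hank.hank H391Z.Sss.rs key tSerre H948Z.SerreHelp.vand tT)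
    H187Z.Trans.trans H516Z.SSSBuild.build H404Z.SSS.alg

theorem tCore : S_CORE :=
  core tT tW H803Z.reg (H920Z.SSSB.lemB H391Z.Sss.p1) H691Z.Sss.lemN tMass H455Z.SSSFact.fact

theorem arT_of {μ : Measure ℝ} [IsProbabilityMeasure μ] {R : ℝ} (hμ : Supp μ R)
    (h : IsArith μ) : ArT μ := by
  intro Q hQ δ hδ
  have hc : Continuous fun x : ℝ => aeval x Q := Polynomial.continuous_aeval Q
  obtain ⟨B, hB⟩ := hμ.bdd hc
  have h1 := h Q hQ
  obtain ⟨v1, v2⟩ := tV ℝ μ (fun x => aeval x Q) B hc.measurable hB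
    (fun e => by rw [e] at h1; simp at h1)
  rw [tU ℝ μ (fun x => aeval x Q) hc.measurable v1 v2] at h1
  exact le_trans (by exact_mod_cast h1)
    ((tW ℝ μ (fun x => aeval x Q) B hc.measurable hB v1 v2).1 δ hδ).2

theorem arith_of {μ : Measure ℝ} [IsProbabilityMeasure μ] {R : ℝ} (hμ : Supp μ R)
    (h : ArT μ) : IsArith μ := by
  intro Q hQ
  have hc : Continuous fun x : ℝ => aeval x Q := Polynomial.continuous_aeval Q
  obtain ⟨B, hB⟩ := hμ.bdd hc
  obtain ⟨t1, t2, t3⟩ := tT ℝ μ (fun x => aeval x Q) B 0 hc.measurable hB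
    fun δ hδ _ => h Q hQ δ hδ
  rw [tU ℝ μ (fun x => aeval x Q) hc.measurable t1 t2]
  exact_mod_cast t3

theorem supp_of {μ : Measure ℝ} (h1 : IsCompact μ.support) (h2 : μ.support ⊆ Ici 0) :
    ∃ R₀ : ℝ, ∀ R, R₀ ≤ R → Supp μ R := by
  obtain ⟨R₀, hR⟩ := h1.bddAbove
  refine ⟨R₀, fun R h => ?_⟩
  filter_upwards [Measure.support_mem_ae (μ := μ)] with x hx
  exact ⟨h2 hx, (hR hx).trans h⟩

theorem Cert.mono {A : Set ℝ} {a b : ℝ} (h : Cert A b) (hab : a ≤ b) : Cert A a := by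
  obtain ⟨M, P, h1, h2, h3⟩ := h
  refine ⟨M, P, h1, h2, fun x hx => (h3 x hx).trans (Real.exp_le_exp.2 ?_)⟩
  exact mul_le_mul_of_nonneg_left (by linarith) (Nat.cast_nonneg _)

theorem int_S_prod {μ : Measure ℝ} [IsProbabilityMeasure μ] {R δ : ℝ} (hμ : Supp μ R)
    (hδ : 0 < δ) : Integrable (fun p : ℝ × ℝ => S δ (p.1 - p.2)) (μ.prod μ) := by
  obtain ⟨B, hB⟩ :=
    isCompact_Icc.exists_bound_of_continuousOn ((cont_S hδ).continuousOn (s := Icc (-R) R))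
  refine (integrable_const B).mono' ((cont_S hδ).comp (by fun_prop)).aestronglyMeasurable ?_
  filter_upwards [hμ.prod hμ] with p hp
  exact hB _ (abs_le.1 hp)

theorem energy_real {μ : Measure ℝ} [IsProbabilityMeasure μ] {L : ℝ} (hL : 12 ≤ L)
    (hμ : Supp μ (4 * L)) (hA : ArT μ) (hm : ((∫ x, x ∂μ : ℝ) : EReal) = lamSSS) :
    (∀ᵐ p ∂(μ.prod μ), p.1 - p.2 ≠ 0) ∧
      Integrable (fun p : ℝ × ℝ => Real.log |p.1 - p.2|) (μ.prod μ) ∧
      ∫ p, Real.log |p.1 - p.2| ∂(μ.prod μ) = 0 := by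
  have hR : 0 < 4 * L := by linarith
  obtain ⟨t1, t2, t3⟩ := tT (ℝ × ℝ) (μ.prod μ) (fun p => p.1 - p.2) (4 * L) 0 (by fun_prop)
    (hμ.prod hμ) fun δ hδ _ => by
      rw [← En_eq (int_S_prod hμ hδ)]
      exact tSerre μ _ hR hμ hA δ hδ
  refine ⟨t1, t2, le_antisymm (tCore μ L hL hμ hA (fun ε hε => ?_) t1 t2) t3⟩
  by_contra hc
  obtain ⟨ν, n1, n2, n3, n4⟩ := H822Z.SssDual.dual (4 * L) (∫ x, x ∂μ - ε) hR
    fun η hη h => hc (h.mono (by linarith))
  have h5 := tSmith ν _ hR n2 n3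
  rw [← hm] at h5
  have h6 : ∫ x, x ∂μ ≤ ∫ x, x ∂ν := by exact_mod_cast h5
  linarith

theorem energy_zero (μ : Measure ℝ) (h : IsOptimal μ) : energy μ = 0 := by
  obtain ⟨h0, h1, h2, h3, h4⟩ := h
  obtain ⟨R₀, hR⟩ := supp_of h1 h2
  have hμ := hR (4 * max 12 R₀) (by linarith [le_max_left 12 R₀, le_max_right 12 R₀])
  obtain ⟨e1, e2, e3⟩ := energy_real (le_max_left _ _) hμ (arT_of hμ h3) h4
  rw [energy, tU (ℝ × ℝ) (μ.prod μ) (fun p => p.1 - p.2) (by fun_prop) e1 e2, e3]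
  rfl

theorem not_cert (ε : ℝ) (hε : 0 < ε) : ¬ Cert (Icc 0 48) (48 + ε) := by
  rintro ⟨M, P, hM, hP, hc⟩
  obtain ⟨s, n, f1, f2, -⟩ := H455Z.SSSFact.fact P hP
  have h1 := (tMass _ (s.sigma rt) (fun i => n i.1) (fun i => i.2) M
    (∑ q ∈ s, n q * Real.log |(q.leadingCoeff : ℝ)|) (48 + ε)
    (Finset.sum_nonneg fun q hq => mul_nonneg (Nat.cast_nonneg _)
      (Real.log_nonneg (one_le_lead (f2 q hq).1))) fun x hx => by
      refine le_trans (le_of_eq ?_) ((f1 x).trans (hc x hx))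
      rw [Real.exp_sum, Finset.prod_sigma, ← Finset.prod_mul_distrib]
      refine Finset.prod_congr rfl fun q hq => ?_
      rw [(f2 q hq).2, mul_pow, Real.exp_nat_mul, ← Finset.prod_pow,
        Real.exp_log (one_pos.trans_le (one_le_lead (f2 q hq).1))]).1
  have h2 : 0 ≤ ∑ i ∈ s.sigma rt, (n i.1 : ℝ) := Finset.sum_nonneg fun _ _ => Nat.cast_nonneg _
  have h3 : (0 : ℝ) < M := by exact_mod_cast hM
  nlinarith

theorem lam_real : ∃ l : ℝ, 0 ≤ l ∧ lamSSS = l := by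
  have h1 : ((0 : ℝ) : EReal) ≤ lamSSS := H404Z.SSS.low 0 ⟨1, 1, one_pos, one_ne_zero,
    fun x hx => by simpa using hx⟩
  obtain ⟨ν, n1, n2, n3, -⟩ := H822Z.SssDual.dual 48 48 (by norm_num) not_cert
  have h2 := tSmith ν _ (by norm_num) n2 n3
  have h3 : lamSSS ≠ ⊤ := ne_top_of_le_ne_top (EReal.coe_ne_top _) h2
  have h4 : lamSSS ≠ ⊥ := ne_bot_of_le_ne_bot (EReal.coe_ne_bot _) h1
  refine ⟨lamSSS.toReal, ?_, (EReal.coe_toReal h3 h4).symm⟩
  rw [← EReal.coe_toReal h3 h4] at h1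
  exact_mod_cast h1

theorem exists_optimal : ∃ μ, IsOptimal μ := by
  obtain ⟨l, l0, hl⟩ := lam_real
  obtain ⟨R₁, hR⟩ := H691Z.Sss.ext tMass (l + 1)
  have R0 : 0 < max R₁ 1 := one_pos.trans_le (le_max_right _ _)
  obtain ⟨ν, n1, n2, n3, n4⟩ := H822Z.SssDual.dual (max R₁ 1) l R0 fun ε hε h => by
    have m0 : 0 < min ε 1 := lt_min hε one_pos
    have h1 := H404Z.SSS.low _ (hR _ (l + min ε 1) (le_max_left _ _) (by linarith)
      (by linarith [min_le_right ε 1]) (h.mono (by linarith [min_le_left ε 1])))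
    rw [hl] at h1
    have h2 : l + min ε 1 ≤ l := by exact_mod_cast h1
    linarith
  have hs : ν.support ⊆ Icc 0 (max R₁ 1) := Measure.support_subset_of_isClosed isClosed_Icc n2
  refine ⟨ν, n1, isCompact_Icc.of_isClosed_subset Measure.isClosed_support hs,
    fun x hx => (hs hx).1, arith_of n2 n3, le_antisymm ?_ (tSmith ν _ R0 n2 n3)⟩
  rw [hl]
  exact_mod_cast n4

theorem optimal_unique {μ ν : Measure ℝ} (h : IsOptimal μ) (h' : IsOptimal ν) : μ = ν := by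
  obtain ⟨h0, h1, h2, h3, h4⟩ := h
  obtain ⟨g0, g1, g2, g3, g4⟩ := h'
  obtain ⟨R₀, hR⟩ := supp_of h1 h2
  obtain ⟨R₁, gR⟩ := supp_of g1 g2
  obtain ⟨L, L1, L2, L3⟩ : ∃ L : ℝ, 12 ≤ L ∧ R₀ ≤ L ∧ R₁ ≤ L :=
    ⟨max 12 (max R₀ R₁), le_max_left _ _, (le_max_left _ _).trans (le_max_right _ _),
      (le_max_right _ _).trans (le_max_right _ _)⟩
  have hμ := hR (4 * L) (by linarith)
  have hν := gR (4 * L) (by linarith)
  have aμ := arT_of hμ h3
  have aν := arT_of hν g3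
  let κ : Measure ℝ := (2 : ENNReal)⁻¹ • (μ + ν)
  have : IsProbabilityMeasure κ := ⟨by
    simp only [κ, Measure.smul_apply, Measure.add_apply, measure_univ, smul_eq_mul, one_add_one_eq_two]
    exact ENNReal.inv_mul_cancel (by norm_num) (by norm_num)⟩
  have hκ : Supp κ (4 * L) :=
    Measure.ae_smul_measure (ae_add_measure_iff.2 ⟨hμ, hν⟩) _
  have hi : ∀ f : ℝ → ℝ, Continuous f → ∫ x, f x ∂κ = (∫ x, f x ∂μ + ∫ x, f x ∂ν) / 2 := by
    intro f hf
    rw [integral_smul_measure, integral_add_measure (hμ.int hf) (hν.int hf)]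
    simp
    ring
  have aκ : ArT κ := by
    intro Q hQ δ hδ
    rw [hi (fun x => S δ (aeval x Q)) ((cont_S hδ).comp (Polynomial.continuous_aeval Q))]
    have := aμ Q hQ δ hδ
    have := aν Q hQ δ hδ
    positivity
  have mκ : ((∫ x, x ∂κ : ℝ) : EReal) = lamSSS := by
    have e : ∫ x, x ∂μ = ∫ x, x ∂ν := by exact_mod_cast h4.trans g4.symm
    rw [hi _ continuous_id', ← e, add_self_div_two, h4]
  obtain ⟨e1, e2, e3⟩ := energy_real L1 hκ aκ mκ
  obtain ⟨w1, w2⟩ := tW (ℝ × ℝ) (κ.prod κ) (fun p => p.1 - p.2) (4 * L) (by fun_prop)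
    (hκ.prod hκ) e1 e2
  refine strict μ ν _ hμ hν fun ε hε => ?_
  obtain ⟨δ₀, d0, d1⟩ := w2 (ε / 4) (by positivity)
  have b0 : 0 < min (1 / 2) δ₀ := lt_min (by norm_num) d0
  refine ⟨min (1 / 2) δ₀, b0, min_le_left _ _, ?_⟩
  have d2 := d1 _ b0 (min_le_right _ _)
  generalize min (1 / 2) δ₀ = b at b0 d2
  rw [e3, ← En_eq (w1 b b0).1] at d2
  have s1 := tSerre μ _ (by linarith) hμ aμ b b0
  have s2 := tSerre ν _ (by linarith) hν aν b b0
  have e4 : En b κ κ = (En b μ μ + En b ν μ + (En b μ ν + En b ν ν)) / 4 := by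
    have e5 : ∀ y, ∫ x, S b (x - y) ∂κ = (∫ x, S b (x - y) ∂μ + ∫ x, S b (x - y) ∂ν) / 2 :=
      fun y => hi _ ((cont_S b0).comp (by fun_prop))
    have c1 := cont_pot b0 hμ
    have c2 := cont_pot b0 hν
    rw [En, hi _ (cont_pot b0 hκ)]
    simp_rw [e5, integral_div]
    rw [integral_add (hμ.int c1) (hμ.int c2), integral_add (hν.int c1) (hν.int c2)]
    unfold En
    ring
  linarith

end Pool.Agent.H39Z.SSS
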