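import Pool.Agent.H39Z.SSS.Spec

/-! Positive definiteness of differences of smoothed logarithmic kernels. -/

set_option autoImplicit false

namespace Pool.Agent.H39Z.SSS

open MeasureTheory Set Complex ComplexConjugate

/-- Fourier-Laplace feature -/
noncomputable def ft (z : ℂ) (ξ : ℝ) : ℂ := Complex.exp (ξ * (I * z.re - |z.im|))

/-- weight -/
noncomputable def om (a b ξ : ℝ) : ℝ := ∫ s in b..a, Real.exp (-s * ξ)

theorem cont_om (a b : ℝ) : Continuous (om a b) := by
  unfold om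
  exact intervalIntegral.continuous_parametric_intervalIntegral_of_continuous'
    (f := fun ξ s : ℝ => Real.exp (-s * ξ)) (by fun_prop) b a

theorem om_nonneg {a b : ℝ} (h : b ≤ a) (ξ : ℝ) : 0 ≤ om a b ξ :=
  intervalIntegral.integral_nonneg h fun _ _ => (Real.exp_pos _).le

theorem om_pos {a b : ℝ} (h : b < a) (ξ : ℝ) : 0 < om a b ξ :=
  intervalIntegral.intervalIntegral_pos_of_pos (by apply Continuous.intervalIntegrable; fun_prop)
    (fun _ => Real.exp_pos _) h

theorem om_le {a b : ℝ} (h : b ≤ a) {ξ : ℝ} (hξ : 0 ≤ ξ) :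
    om a b ξ ≤ (a - b) * Real.exp (-b * ξ) := by
  have := intervalIntegral.integral_mono_on (μ := volume) (f := fun s => Real.exp (-s * ξ))
    (g := fun _ => Real.exp (-b * ξ)) h (by apply Continuous.intervalIntegrable; fun_prop)
    (by apply Continuous.intervalIntegrable; fun_prop)
    (fun s hs => Real.exp_le_exp.2 (by nlinarith [hs.1]))
  simpa [om] using this

theorem int_om {a b : ℝ} (hb : 0 < b) (h : b ≤ a) : IntegrableOn (om a b) (Ioi 0) := by
  have h1 : IntegrableOn (fun ξ => (a - b) * Real.exp (-b * ξ)) (Ioi 0) :=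
    (integrableOn_exp_mul_Ioi (a := -b) (by linarith) 0).const_mul _
  refine h1.mono' (cont_om a b).aestronglyMeasurable ?_
  filter_upwards [ae_restrict_mem measurableSet_Ioi] with ξ hξ
  rw [Real.norm_of_nonneg (om_nonneg h ξ)]
  exact om_le h (le_of_lt hξ)

theorem frullani {a b : ℝ} (hb : 0 < b) (h : b ≤ a) (V D : ℝ) (hV : 0 ≤ V) :
    ∫ ξ in Ioi (0 : ℝ), om a b ξ * (Complex.exp (ξ * (I * D - V))).re =
      Real.log (D ^ 2 + (V + a) ^ 2) / 2 - Real.log (D ^ 2 + (V + b) ^ 2) / 2 := by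
  let F : ℝ → ℝ → ℝ := fun s ξ => (Complex.exp ((I * D - V - s) * ξ)).re
  have hF : ∀ ξ : ℝ, om a b ξ * (Complex.exp (ξ * (I * D - V))).re = ∫ s in b..a, F s ξ := by
    intro ξ
    rw [om, ← intervalIntegral.integral_mul_const]
    congr 1
    funext s
    have : (I * D - V - s) * ξ = ((-s * ξ : ℝ) : ℂ) + ξ * (I * D - V) := by push_cast; ring
    simp only [F, this, Complex.exp_add, ← Complex.ofReal_exp, Complex.re_ofReal_mul]
  simp_rw [hF]
  have hint : Integrable (Function.uncurry F)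
      ((volume.restrict (uIoc b a)).prod (volume.restrict (Ioi (0 : ℝ)))) := by
    have h1 : Integrable (fun _ : ℝ => (1 : ℝ)) (volume.restrict (uIoc b a)) := by
      rw [uIoc_of_le h]; exact integrable_const _
    have h2 := h1.mul_prod (integrableOn_exp_mul_Ioi (a := -b) (by linarith) 0)
    refine h2.mono' ?_ ?_
    · apply Continuous.aestronglyMeasurable
      simp only [F]
      fun_prop
    · rw [Measure.prod_restrict]
      filter_upwards [ae_restrict_mem (measurableSet_uIoc.prod measurableSet_Ioi)] with p hp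
      obtain ⟨hp1, hp2⟩ := hp
      rw [uIoc_of_le h] at hp1
      have hp2' : 0 < p.2 := hp2
      refine (Complex.abs_re_le_norm _).trans ?_
      rw [Complex.norm_exp, one_mul]
      apply Real.exp_le_exp.2
      simp
      nlinarith [hp1.1]
  rw [← intervalIntegral_integral_swap hint]
  have h3 : ∀ s ∈ uIcc b a, ∫ ξ in Ioi (0 : ℝ), F s ξ = (V + s) / (D ^ 2 + (V + s) ^ 2) := by
    intro s hs
    rw [uIcc_of_le h] at hs
    have hs0 : 0 < s := hb.trans_le hs.1
    have hre : (I * D - V - s : ℂ).re < 0 := by simp; linarith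
    have h4 := integral_exp_mul_complex_Ioi hre 0
    have h5 := (Complex.reCLM.integral_comp_comm (integrableOn_exp_mul_complex_Ioi hre 0))
    simp only [Complex.reCLM_apply] at h5
    simp only [F]
    rw [h5, h4]
    have h6 : D ^ 2 + (V + s) ^ 2 ≠ 0 := by positivity
    simp [Complex.div_re, Complex.normSq_apply]
    rw [show (-V - s) * (-V - s) + D * D = D ^ 2 + (V + s) ^ 2 by ring]
    field_simp
    ring
  rw [intervalIntegral.integral_congr h3]
  have h7 : ∀ s ∈ uIcc b a, HasDerivAt (fun s => Real.log (D ^ 2 + (V + s) ^ 2) / 2)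
      ((V + s) / (D ^ 2 + (V + s) ^ 2)) s := by
    intro s hs
    rw [uIcc_of_le h] at hs
    have hs0 : 0 < s := hb.trans_le hs.1
    have h6 : D ^ 2 + (V + s) ^ 2 ≠ 0 := by positivity
    have h8 : HasDerivAt (fun s => D ^ 2 + (V + s) ^ 2) (2 * (V + s)) s := by
      have := (((hasDerivAt_id s).const_add V).pow 2).const_add (D ^ 2)
      simpa using this
    refine ((h8.log h6).div_const 2).congr_deriv ?_
    field_simp
  refine intervalIntegral.integral_eq_sub_of_hasDerivAt h7 ?_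
  apply ContinuousOn.intervalIntegrable
  refine ContinuousOn.div (by fun_prop) (by fun_prop) fun s hs => ?_
  rw [uIcc_of_le h] at hs
  have hs0 : 0 < s := hb.trans_le hs.1
  positivity

/-- the bilinear form -/
noncomputable def Bf (a b : ℝ) (F G : ℝ → ℂ) : ℝ :=
  ∫ ξ in Ioi (0 : ℝ), om a b ξ * (F ξ * conj (G ξ)).re

theorem K_sub {a b : ℝ} (hb : 0 < b) (h : b ≤ a) (z w : ℂ) :
    K a z w - K b z w = Bf a b (ft z) (ft w) := by
  rw [K, K, ← frullani hb h (|z.im| + |w.im|) (z.re - w.re) (by positivity), Bf]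
  congr 1
  funext ξ
  congr 2
  rw [ft, ft, ← Complex.exp_conj, ← Complex.exp_add]
  congr 1
  simp only [map_mul, map_sub, conj_ofReal, conj_I]
  push_cast
  ring

/-- continuous and bounded on the half line -/
def Nice (F : ℝ → ℂ) : Prop := Continuous F ∧ ∃ C : ℝ, ∀ ξ, 0 ≤ ξ → ‖F ξ‖ ≤ C

theorem norm_ft (z : ℂ) {ξ : ℝ} (h : 0 ≤ ξ) : ‖ft z ξ‖ ≤ 1 := by
  rw [ft, Complex.norm_exp, Real.exp_le_one_iff]
  simp
  positivity

theorem norm_ft_real (x ξ : ℝ) : ‖ft x ξ‖ = 1 := by
  rw [ft, Complex.norm_exp]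
  simp

theorem nice_ft (z : ℂ) : Nice (ft z) :=
  ⟨by unfold ft; fun_prop, 1, fun _ h => norm_ft z h⟩

theorem Nice.sub {F G : ℝ → ℂ} (hF : Nice F) (hG : Nice G) : Nice fun ξ => F ξ - G ξ := by
  obtain ⟨h1, C, hC⟩ := hF
  obtain ⟨h2, D, hD⟩ := hG
  exact ⟨h1.sub h2, C + D, fun ξ h => (norm_sub_le _ _).trans (add_le_add (hC ξ h) (hD ξ h))⟩

theorem nice_sum {ι : Type} (t : Finset ι) (w : ι → ℝ) (z : ι → ℂ) :
    Nice fun ξ => ∑ i ∈ t, (w i : ℂ) * ft (z i) ξ := by
  refine ⟨continuous_finsetSum _ fun i _ => continuous_const.mul (nice_ft _).1,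
    ∑ i ∈ t, |w i|, fun ξ h => (norm_sum_le _ _).trans (Finset.sum_le_sum fun i _ => ?_)⟩
  rw [norm_mul, Complex.norm_real, Real.norm_eq_abs]
  exact mul_le_of_le_one_right (abs_nonneg _) (norm_ft _ h)

theorem int_Bf {a b : ℝ} (hb : 0 < b) (h : b ≤ a) {F G : ℝ → ℂ} (hF : Nice F) (hG : Nice G) :
    IntegrableOn (fun ξ => om a b ξ * (F ξ * conj (G ξ)).re) (Ioi 0) := by
  obtain ⟨h1, C, hC⟩ := hF
  obtain ⟨h2, D, hD⟩ := hG
  refine ((int_om hb h).mul_const (C * D)).mono' ?_ ?_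
  · apply Continuous.aestronglyMeasurable
    have := cont_om a b
    fun_prop
  · filter_upwards [ae_restrict_mem measurableSet_Ioi] with ξ hξ
    have hξ' : 0 ≤ ξ := le_of_lt hξ
    rw [norm_mul, Real.norm_of_nonneg (om_nonneg h ξ)]
    refine mul_le_mul_of_nonneg_left ((Complex.abs_re_le_norm _).trans ?_) (om_nonneg h ξ)
    rw [norm_mul, Complex.norm_conj]
    exact mul_le_mul (hC ξ hξ') (hD ξ hξ') (norm_nonneg _) ((norm_nonneg _).trans (hC ξ hξ'))

theorem Bf_comm (a b : ℝ) (F G : ℝ → ℂ) : Bf a b F G = Bf a b G F := by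
  unfold Bf
  congr 1
  funext ξ
  simp only [mul_re, conj_re, conj_im]
  ring

theorem Bf_sum {a b : ℝ} (hb : 0 < b) (h : b ≤ a) {F : ℝ → ℂ} (hF : Nice F) {ι : Type}
    (t : Finset ι) (w : ι → ℝ) (z : ι → ℂ) :
    Bf a b F (fun ξ => ∑ i ∈ t, (w i : ℂ) * ft (z i) ξ) = ∑ i ∈ t, w i * Bf a b F (ft (z i)) := by
  unfold Bf
  simp_rw [← integral_const_mul]
  rw [← integral_finsetSum _ fun i _ => (int_Bf hb h hF (nice_ft _)).const_mul _]
  congr 1
  funext ξ
  rw [map_sum, Finset.mul_sum, Complex.re_sum, Finset.mul_sum]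
  refine Finset.sum_congr rfl fun i _ => ?_
  simp only [map_mul, conj_ofReal, mul_re, mul_im, ofReal_re, ofReal_im, conj_re, conj_im]
  ring

theorem Bf_cs {a b : ℝ} (hb : 0 < b) (h : b ≤ a) {F G : ℝ → ℂ} (hF : Nice F) (hG : Nice G)
    (m : ℝ) {θ : ℝ} (hθ : 0 < θ) :
    2 * m * Bf a b F G ≤ m ^ 2 * (Bf a b F F / θ) + θ * Bf a b G G := by
  unfold Bf
  rw [← integral_div, ← integral_const_mul, ← integral_const_mul, ← integral_const_mul,
    ← integral_add (((int_Bf hb h hF hF).div_const _).const_mul _)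
      ((int_Bf hb h hG hG).const_mul _)]
  refine integral_mono ((int_Bf hb h hF hG).const_mul _)
    ((((int_Bf hb h hF hF).div_const _).const_mul _).add ((int_Bf hb h hG hG).const_mul _))
    fun ξ => ?_
  have h0 := om_nonneg h ξ
  simp only [mul_re, conj_re, conj_im]
  have h1 : 0 ≤ om a b ξ * (((m * (F ξ).re - θ * (G ξ).re) ^ 2 +
      (m * (F ξ).im - θ * (G ξ).im) ^ 2) / θ) := by positivity
  refine le_of_sub_nonneg (h1.trans_eq ?_)
  field_simp
  ring

/-- transform of a measure -/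
noncomputable def Fm (μ : Measure ℝ) (ξ : ℝ) : ℂ := ∫ x : ℝ, ft x ξ ∂μ

theorem cont_ft2 : Continuous fun p : ℝ × ℝ => ft p.1 p.2 := by
  unfold ft
  fun_prop

theorem nice_Fm (μ : Measure ℝ) [IsProbabilityMeasure μ] : Nice (Fm μ) := by
  refine ⟨?_, 1, fun ξ _ => ?_⟩
  · refine continuous_of_dominated (bound := fun _ => 1) (fun ξ => ?_)
      (fun ξ => Filter.Eventually.of_forall fun x => (norm_ft_real x ξ).le) (integrable_const _)
      (Filter.Eventually.of_forall fun x => (nice_ft _).1)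
    exact (cont_ft2.comp (Continuous.prodMk_left ξ)).aestronglyMeasurable
  · have := norm_integral_le_of_norm_le_const (μ := μ) (f := fun x : ℝ => ft x ξ) (C := 1)
      (Filter.Eventually.of_forall fun x => (norm_ft_real x ξ).le)
    simpa [Fm] using this

theorem Bf_int {a b : ℝ} (hb : 0 < b) (h : b ≤ a) (μ : Measure ℝ) [IsProbabilityMeasure μ]
    {G : ℝ → ℂ} (hG : Nice G) : ∫ x : ℝ, Bf a b (ft x) G ∂μ = Bf a b (Fm μ) G := by
  obtain ⟨h2, D, hD⟩ := hG
  unfold Bf
  rw [integral_integral_swap]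
  · congr 1
    funext ξ
    rw [integral_const_mul, Fm, ← integral_mul_const]
    congr 1
    have hi : Integrable (fun x : ℝ => ft x ξ * conj (G ξ)) μ := by
      refine Integrable.mul_const ?_ _
      refine (integrable_const (1 : ℝ)).mono' ?_
        (Filter.Eventually.of_forall fun x => (norm_ft_real x ξ).le)
      exact (cont_ft2.comp (Continuous.prodMk_left ξ)).aestronglyMeasurable
    exact Complex.reCLM.integral_comp_comm hi
  · have h1 := (integrable_const (μ := μ) D).mul_prod (int_om hb h)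
    refine h1.mono' ?_ ?_
    · apply Continuous.aestronglyMeasurable
      have := cont_om a b
      have := cont_ft2
      unfold Function.uncurry
      fun_prop
    · rw [← Measure.restrict_univ (μ := μ), Measure.prod_restrict]
      filter_upwards [ae_restrict_mem (MeasurableSet.univ.prod measurableSet_Ioi)] with p hp
      have hξ' : 0 ≤ p.2 := le_of_lt hp.2
      simp only [Function.uncurry]
      rw [norm_mul, Real.norm_of_nonneg (om_nonneg h _), mul_comm D]
      refine mul_le_mul_of_nonneg_left ((Complex.abs_re_le_norm _).trans ?_) (om_nonneg h _)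
      rw [norm_mul, Complex.norm_conj, norm_ft_real, one_mul]
      exact hD _ hξ'

theorem Supp.int {μ : Measure ℝ} [IsProbabilityMeasure μ] {R : ℝ} (h : Supp μ R) {f : ℝ → ℝ}
    (hf : Continuous f) : Integrable f μ := by
  rw [← Measure.restrict_eq_self_of_ae_mem h]
  exact hf.continuousOn.integrableOn_Icc

theorem Supp.cont {μ : Measure ℝ} [IsProbabilityMeasure μ] {R : ℝ} (h : Supp μ R)
    {f : ℝ → ℝ → ℝ} (hf : Continuous f.uncurry) : Continuous fun y => ∫ x, f y x ∂μ := by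
  rw [← Measure.restrict_eq_self_of_ae_mem h]
  exact continuous_parametric_integral_of_continuous hf isCompact_Icc

theorem K_real (s x y : ℝ) : K s x y = S s (x - y) := by simp [K, S]

theorem cont_S {s : ℝ} (hs : 0 < s) : Continuous (S s) := by
  unfold S
  exact (Continuous.log (by fun_prop) fun t => by positivity).div_const _

theorem cont_K {s : ℝ} (hs : 0 < s) (z : ℂ) : Continuous fun x : ℝ => K s x z := by
  unfold K
  exact (Continuous.log (by fun_prop) fun t => by positivity).div_const _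

theorem pot_sub {a b : ℝ} (hb : 0 < b) (h : b ≤ a) {μ : Measure ℝ} [IsProbabilityMeasure μ]
    {R : ℝ} (hμ : Supp μ R) (z : ℂ) :
    ∫ x : ℝ, K a x z ∂μ - ∫ x : ℝ, K b x z ∂μ = Bf a b (Fm μ) (ft z) := by
  rw [← integral_sub (hμ.int (cont_K (hb.trans_le h) z)) (hμ.int (cont_K hb z)),
    ← Bf_int hb h μ (nice_ft z)]
  simp_rw [K_sub hb h]

theorem cont_pot {s : ℝ} (hs : 0 < s) {μ : Measure ℝ} [IsProbabilityMeasure μ] {R : ℝ}
    (hμ : Supp μ R) : Continuous fun y : ℝ => ∫ x, S s (x - y) ∂μ :=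
  hμ.cont (f := fun y x => S s (x - y)) ((cont_S hs).comp (by fun_prop))

theorem En_sub {a b : ℝ} (hb : 0 < b) (h : b ≤ a) {μ ν : Measure ℝ} [IsProbabilityMeasure μ]
    [IsProbabilityMeasure ν] {R : ℝ} (hμ : Supp μ R) (hν : Supp ν R) :
    En a μ ν - En b μ ν = Bf a b (Fm μ) (Fm ν) := by
  rw [En, En, ← integral_sub (hν.int (cont_pot (hb.trans_le h) hμ)) (hν.int (cont_pot hb hμ)),
    Bf_comm, ← Bf_int hb h ν (nice_Fm μ)]
  congr 1
  funext y
  rw [Bf_comm, ← pot_sub hb h hμ]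
  simp_rw [K_real]

theorem K_ge {a : ℝ} (ha : 0 < a) (z w : ℂ) : Real.log a ≤ K a z w := by
  rw [K, le_div_iff₀ (by norm_num), mul_comm, ← Nat.cast_ofNat, ← Real.log_pow]
  refine Real.log_le_log (by positivity) ?_
  nlinarith [sq_nonneg (z.re - w.re), abs_nonneg z.im, abs_nonneg w.im]

theorem K_le {a : ℝ} (ha : 0 < a) (z w : ℂ) :
    K a z w ≤ Real.log a + (|z.re - w.re| + |z.im| + |w.im|) / a := by
  set u := |z.re - w.re| + |z.im| + |w.im| with hu
  have hu0 : 0 ≤ u := by positivity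
  have h1 : K a z w ≤ Real.log (a + u) := by
    have e : Real.log (a + u) * 2 = Real.log ((a + u) ^ 2) := by
      rw [Real.log_pow]; push_cast; ring
    rw [K, div_le_iff₀ (by norm_num), e]
    refine Real.log_le_log (by positivity) ?_
    rw [← sq_abs (z.re - w.re)]
    nlinarith [abs_nonneg (z.re - w.re), abs_nonneg z.im, abs_nonneg w.im]
  have h2 : Real.log (a + u) = Real.log a + Real.log (1 + u / a) := by
    rw [← Real.log_mul ha.ne' (by positivity)]
    congr 1
    field_simp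
  have h3 := Real.log_le_sub_one_of_pos (show 0 < 1 + u / a by positivity)
  linarith

theorem pot_ge {a : ℝ} (ha : 0 < a) {μ : Measure ℝ} [IsProbabilityMeasure μ] {R : ℝ}
    (hμ : Supp μ R) (z : ℂ) : Real.log a ≤ ∫ x : ℝ, K a x z ∂μ := by
  have := integral_mono (integrable_const (μ := μ) (Real.log a)) (hμ.int (cont_K ha z))
    fun x => K_ge ha x z
  simpa using this

theorem En_ge {a : ℝ} (ha : 0 < a) {μ ν : Measure ℝ} [IsProbabilityMeasure μ]
    [IsProbabilityMeasure ν] {R : ℝ} (hμ : Supp μ R) (hν : Supp ν R) :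
    Real.log a ≤ En a μ ν := by
  have := integral_mono (integrable_const (μ := ν) (Real.log a)) (hν.int (cont_pot ha hμ))
    fun y => by
      have := pot_ge ha hμ y
      simpa only [K_real] using this
  simpa [En] using this

theorem En_le {a : ℝ} (ha : 0 < a) {μ ν : Measure ℝ} [IsProbabilityMeasure μ]
    [IsProbabilityMeasure ν] {R : ℝ} (hμ : Supp μ R) (hν : Supp ν R) :
    En a μ ν ≤ Real.log a + R / a := by
  have := integral_mono_ae (hν.int (cont_pot ha hμ))
    (integrable_const (μ := ν) (Real.log a + R / a)) (by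
      filter_upwards [hν] with y hy
      have := integral_mono_ae (hμ.int (f := fun x => S a (x - y)) ((cont_S ha).comp (by fun_prop)))
        (integrable_const (μ := μ) (Real.log a + R / a)) (by
          filter_upwards [hμ] with x hx
          have h1 := K_le ha x y
          rw [K_real] at h1
          simp only [ofReal_re, ofReal_im, abs_zero, add_zero] at h1
          have h2 : |x - y| ≤ R := abs_le.2 ⟨by linarith [hx.1, hy.2], by linarith [hx.2, hy.1]⟩
          have h3 : |x - y| / a ≤ R / a := by gcongr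
          linarith)
      simpa using this)
  simpa [En] using this

theorem nonpos_of_div {X C δ : ℝ} (h : ∀ a, 0 < a → δ ≤ a → X ≤ C / a) : X ≤ 0 := by
  by_contra hX
  push Not at hX
  have h1 := h (|δ| + |C| / X + 1) (by positivity)
    (by linarith [le_abs_self δ, show 0 ≤ |C| / X by positivity])
  rw [le_div_iff₀ (by positivity)] at h1
  have h2 : X * (|C| / X) = |C| := by field_simp
  nlinarith [le_abs_self C, abs_nonneg δ]

theorem KK_sub {a b : ℝ} (hb : 0 < b) (h : b ≤ a) {ι : Type} (t : Finset ι) (w : ι → ℝ)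
    (z : ι → ℂ) :
    ∑ i ∈ t, ∑ j ∈ t, w i * w j * K a (z i) (z j) - ∑ i ∈ t, ∑ j ∈ t, w i * w j * K b (z i) (z j)
      = Bf a b (fun ξ => ∑ i ∈ t, (w i : ℂ) * ft (z i) ξ)
        (fun ξ => ∑ i ∈ t, (w i : ℂ) * ft (z i) ξ) := by
  rw [Bf_sum hb h (nice_sum t w z), ← Finset.sum_sub_distrib]
  refine Finset.sum_congr rfl fun i _ => ?_
  rw [Bf_comm, Bf_sum hb h (nice_ft _), Finset.mul_sum, ← Finset.sum_sub_distrib]
  refine Finset.sum_congr rfl fun j _ => ?_
  rw [← K_sub hb h]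
  ring

theorem pd {a b : ℝ} (hb : 0 < b) (h : b ≤ a) {μ : Measure ℝ} [IsProbabilityMeasure μ] {R : ℝ}
    (hμ : Supp μ R) {ι : Type} (t : Finset ι) (w : ι → ℝ) (z : ι → ℂ) (m : ℝ) {θ : ℝ}
    (hθ : 0 < θ) :
    2 * m * (∑ i ∈ t, w i * ∫ x : ℝ, K a x (z i) ∂μ - ∑ i ∈ t, w i * ∫ x : ℝ, K b x (z i) ∂μ) ≤
      m ^ 2 * ((En a μ μ - En b μ μ) / θ) +
        θ * (∑ i ∈ t, ∑ j ∈ t, w i * w j * K a (z i) (z j) -
          ∑ i ∈ t, ∑ j ∈ t, w i * w j * K b (z i) (z j)) := by
  rw [KK_sub hb h, En_sub hb h hμ hμ]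
  convert Bf_cs hb h (nice_Fm μ) (nice_sum t w z) m hθ using 2
  rw [Bf_sum hb h (nice_Fm μ), ← Finset.sum_sub_distrib]
  refine Finset.sum_congr rfl fun i _ => ?_
  rw [← pot_sub hb h hμ]
  ring

theorem cnd {δ : ℝ} (hδ : 0 < δ) {μ : Measure ℝ} [IsProbabilityMeasure μ] {R : ℝ}
    (hμ : Supp μ R) {ι : Type} (t : Finset ι) (w : ι → ℝ) (z : ι → ℂ) (hw : ∀ i ∈ t, 0 ≤ w i) :
    (∑ i ∈ t, w i) ^ 2 * En δ μ μ + ∑ i ∈ t, ∑ j ∈ t, w i * w j * K δ (z i) (z j) ≤
      2 * (∑ i ∈ t, w i) * ∑ i ∈ t, w i * ∫ x : ℝ, K δ x (z i) ∂μ := by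
  set m := ∑ i ∈ t, w i with hm
  have hm0 : 0 ≤ m := Finset.sum_nonneg hw
  rw [← sub_nonpos]
  refine nonpos_of_div (δ := δ) (C := m ^ 2 * R + ∑ i ∈ t, ∑ j ∈ t,
    w i * w j * (|(z i).re - (z j).re| + |(z i).im| + |(z j).im|)) fun a ha h => ?_
  have h1 := pd hδ h hμ t w z m one_pos
  have h2 : m * Real.log a ≤ ∑ i ∈ t, w i * ∫ x : ℝ, K a x (z i) ∂μ := by
    rw [hm, Finset.sum_mul]
    exact Finset.sum_le_sum fun i hi => mul_le_mul_of_nonneg_left (pot_ge ha hμ _) (hw i hi)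
  have h3 := En_le ha hμ hμ
  have h4 : ∑ i ∈ t, ∑ j ∈ t, w i * w j * K a (z i) (z j) ≤ m ^ 2 * Real.log a +
      (∑ i ∈ t, ∑ j ∈ t, w i * w j * (|(z i).re - (z j).re| + |(z i).im| + |(z j).im|)) / a := by
    rw [sq, hm, Finset.sum_mul_sum, Finset.sum_mul, Finset.sum_div, ← Finset.sum_add_distrib]
    refine Finset.sum_le_sum fun i hi => ?_
    rw [Finset.sum_mul, Finset.sum_div, ← Finset.sum_add_distrib]
    refine Finset.sum_le_sum fun j hj => ?_
    have := mul_le_mul_of_nonneg_left (K_le ha (z i) (z j)) (mul_nonneg (hw i hi) (hw j hj))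
    rw [mul_div_assoc]
    linarith
  have h5 := mul_le_mul_of_nonneg_left h2 hm0
  have h6 := mul_le_mul_of_nonneg_left h3 (sq_nonneg m)
  rw [add_div, mul_div_assoc]
  rw [div_one] at h1
  nlinarith

theorem key : S_KEY := by
  intro μ _ R hμ ι t w z ρ δ θ hw hρ h hθ _
  have h1 := cnd (hρ.trans_le h) hμ t w z hw
  have h2 := pd hρ h hμ t w z (∑ i ∈ t, w i) hθ
  linarith

theorem Bf_sub {a b : ℝ} (hb : 0 < b) (h : b ≤ a) {F G : ℝ → ℂ} (hF : Nice F) (hG : Nice G) :
    Bf a b F F + Bf a b G G - Bf a b F G - Bf a b G F =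
      ∫ ξ in Ioi (0 : ℝ), om a b ξ * ‖F ξ - G ξ‖ ^ 2 := by
  unfold Bf
  have e1 := integral_add (int_Bf hb h hF hF) (int_Bf hb h hG hG)
  have e2 := integral_sub ((int_Bf hb h hF hF).add (int_Bf hb h hG hG)) (int_Bf hb h hF hG)
  have e3 := integral_sub (((int_Bf hb h hF hF).add (int_Bf hb h hG hG)).sub (int_Bf hb h hF hG))
      (int_Bf hb h hG hF)
  simp only [Pi.add_apply, Pi.sub_apply] at e2 e3
  rw [← e1, ← e2, ← e3]
  congr 1
  funext ξ
  simp only [Complex.sq_norm, Complex.normSq_apply, mul_re, conj_re,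
    conj_im, sub_re, sub_im]
  ring

theorem strict : S_STRICT := by
  intro μ ν _ _ R hμ hν hε
  let D : ℝ → ℝ := fun b => En b μ μ + En b ν ν - En b μ ν - En b ν μ
  have hD : ∀ a b, 0 < b → b ≤ a →
      D a - D b = ∫ ξ in Ioi (0 : ℝ), om a b ξ * ‖Fm μ ξ - Fm ν ξ‖ ^ 2 := by
    intro a b hb h
    rw [← Bf_sub hb h (nice_Fm μ) (nice_Fm ν), ← En_sub hb h hμ hμ, ← En_sub hb h hν hν,
      ← En_sub hb h hμ hν, ← En_sub hb h hν hμ]
    ring
  have hmono : ∀ a b, 0 < b → b ≤ a → D b ≤ D a := by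
    intro a b hb h
    rw [← sub_nonneg, hD a b hb h]
    exact integral_nonneg fun ξ => mul_nonneg (om_nonneg h ξ) (sq_nonneg _)
  have h1 : D 1 ≤ 0 := by
    refine nonpos_of_div (δ := 1) (C := 2 * R) fun a ha h => (hmono a 1 one_pos h).trans ?_
    have := En_le ha hμ hμ
    have := En_le ha hν hν
    have := En_ge ha hμ hν
    have := En_ge ha hν hμ
    simp only [D, mul_div_assoc]
    linarith
  have h2 : D 1 - D (1 / 2) ≤ 0 := by
    refine le_of_forall_pos_le_add fun ε hε0 => ?_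
    obtain ⟨b, hb, hb2, hb3⟩ := hε ε hε0
    have := hmono (1 / 2) b hb hb2
    have h4 : -ε ≤ D b := hb3
    linarith
  have hle : (1 / 2 : ℝ) ≤ 1 := by norm_num
  rw [hD 1 (1 / 2) (by norm_num) hle] at h2
  have hc : Continuous fun ξ => om 1 (1 / 2) ξ * ‖Fm μ ξ - Fm ν ξ‖ ^ 2 := by
    have := cont_om 1 (1 / 2)
    have := (nice_Fm μ).1
    have := (nice_Fm ν).1
    fun_prop
  have hi : IntegrableOn (fun ξ => om 1 (1 / 2) ξ * ‖Fm μ ξ - Fm ν ξ‖ ^ 2) (Ioi 0) := by
    have hn := (nice_Fm μ).sub (nice_Fm ν)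
    convert int_Bf (by norm_num) hle hn hn using 3
    rw [Complex.mul_conj, Complex.normSq_eq_norm_sq, Complex.ofReal_re]
  have h3 := (integral_eq_zero_iff_of_nonneg
    (fun ξ => mul_nonneg (om_nonneg hle ξ) (sq_nonneg _)) hi).1
    (le_antisymm h2 (integral_nonneg fun ξ => mul_nonneg (om_nonneg hle ξ) (sq_nonneg _)))
  have h4 := Measure.eqOn_open_of_ae_eq h3 isOpen_Ioi hc.continuousOn continuousOn_const
  have h5 : ∀ ξ, 0 < ξ → charFun μ ξ = charFun ν ξ := by
    intro ξ hξ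
    have h6 := h4 hξ
    simp only [Pi.zero_apply, mul_eq_zero, (om_pos (show (1 / 2 : ℝ) < 1 by norm_num) ξ).ne',
      false_or, pow_eq_zero_iff (two_ne_zero), norm_eq_zero, sub_eq_zero] at h6
    have h7 : ∀ κ : Measure ℝ, charFun κ ξ = Fm κ ξ := by
      intro κ
      rw [charFun_apply_real, Fm]
      congr 1
      funext x
      simp only [ft, ofReal_re, ofReal_im, abs_zero, ofReal_zero, sub_zero]
      congr 1
      ring
    rw [h7, h7, h6]
  refine Measure.ext_of_charFun (funext fun ξ => ?_)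
  rcases lt_trichotomy ξ 0 with h | h | h
  · have := h5 (-ξ) (by linarith)
    rw [charFun_neg, charFun_neg] at this
    exact (starRingEnd ℂ).injective this
  · simp [h]
  · exact h5 ξ h

end Pool.Agent.H39Z.SSS
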